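import Pool.Agent.helper83.AD.BUTop
import Pool.Agent.helper83.AD.Susp

set_option autoImplicit false

/-!
# MC (MP_56b5c1): the classical Borsuk-Ulam theorem for the unit sphere
-/

namespace Pool.Agent.helper7.MC

open Pool.Agent.helper83.AD

/-- data of length `0` for the two points `1, -1` of the real line -/
theorem buData_zero :
    BUData (-(LinearMap.id : ℝ →ₗ[ℝ] ℝ)) 0 ({1, -1} : Set ℝ) 0 := by
  classical
  refine ⟨Bool, inferInstance, inferInstance, Bool.not, fun i σ => if i = 0 ∧ σ = {true} then 1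
    else 0, fun b => if b then 1 else -1, Bool.involutive_not, ?_, ?_, ?_, ?_⟩
  · refine ⟨?_, ?_, ?_⟩
    · intro i σ h
      have h1 : i = 0 ∧ σ = {true} := by
        by_contra hc
        exact h (if_neg hc)
      rw [h1.1, h1.2, Finset.card_singleton]
    · intro i hi
      omega
    · unfold bd
      simp
  · intro b
    cases b <;> simp
  · intro i _ σ h
    have h1 : i = 0 ∧ σ = {true} := by
      by_contra hc
      exact h (if_neg hc)
    rw [h1.2]
    simp
  · intro i _ σ h v hv w hw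
    have h1 : i = 0 ∧ σ = {true} := by
      by_contra hc
      exact h (if_neg hc)
    rw [h1.2, Finset.mem_singleton] at hv hw
    rw [hv, hw]
    simp

/-- The Borsuk-Ulam theorem: a continuous odd map from the unit sphere of `ℝ^(n+1)` to `ℝ^n`
has a zero. -/
theorem borsukUlam (n : ℕ) (f : EuclideanSpace ℝ (Fin (n + 1)) → (Fin n → ℝ))
    (hf : ContinuousOn f (Metric.sphere 0 1))
    (hodd : ∀ x ∈ Metric.sphere (0 : EuclideanSpace ℝ (Fin (n + 1))) 1, f (-x) = - f x) :
    ∃ x ∈ Metric.sphere (0 : EuclideanSpace ℝ (Fin (n + 1))) 1, f x = 0 := by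
  obtain ⟨δ, h⟩ := buData_zero.suspN (by
    intro x hx
    rcases hx with rfl | hx
    · right
      simp
    · left
      rw [Set.mem_singleton_iff] at hx
      rw [hx]
      simp) n
  rw [zero_add] at h
  -- the linear map to Euclidean space
  let φ : ℝ × (Fin n → ℝ) →ₗ[ℝ] EuclideanSpace ℝ (Fin (n + 1)) :=
    { toFun := fun q => WithLp.toLp 2 (Fin.cons q.1 q.2)
      map_add' := by
        intro q q'
        ext i
        refine Fin.cases ?_ (fun j => ?_) i
        · simp
        · simp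
      map_smul' := by
        intro r q
        ext i
        refine Fin.cases ?_ (fun j => ?_) i
        · simp
        · simp }
  have hφ0 : ∀ q, φ q = 0 → q = 0 := by
    intro q hq
    have h1 : ∀ i, (Fin.cons q.1 q.2 : Fin (n + 1) → ℝ) i = 0 := by
      intro i
      have := congrArg (fun x : EuclideanSpace ℝ (Fin (n + 1)) => x i) hq
      simpa [φ] using this
    refine Prod.ext ?_ (funext fun j => ?_)
    · simpa using h1 0
    · simpa using h1 j.succ
  have hne : ∀ q ∈ {q : ℝ × (Fin n → ℝ) | ∃ x ∈ ({1, -1} : Set ℝ), ∃ a : ℝ, 0 ≤ a ∧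
      q.1 = a • x ∧ a + ∑ i, |q.2 i| = 1}, φ q ≠ 0 := by
    rintro q ⟨x, hx, a, ha, h1, h2⟩ hq
    have hq0 := hφ0 q hq
    rw [hq0] at h1 h2
    have ha1 : a = 1 := by simpa using h2
    rw [ha1] at h1
    have hx0 : x = 0 := by simpa using h1.symm
    rcases hx with hx | hx
    · rw [hx0] at hx
      norm_num at hx
    · rw [Set.mem_singleton_iff, hx0] at hx
      norm_num at hx
  obtain ⟨q, hq, hz⟩ := h.exists_zero le_rfl (fun q => f (‖φ q‖⁻¹ • φ q)) (by
    have hc : ContinuousOn (fun q => ‖φ q‖⁻¹ • φ q) {q : ℝ × (Fin n → ℝ) |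
        ∃ x ∈ ({1, -1} : Set ℝ), ∃ a : ℝ, 0 ≤ a ∧ q.1 = a • x ∧ a + ∑ i, |q.2 i| = 1} := by
      have hφc : Continuous φ := φ.continuous_of_finiteDimensional
      have h1 : ContinuousOn (fun q => ‖φ q‖⁻¹) {q : ℝ × (Fin n → ℝ) |
          ∃ x ∈ ({1, -1} : Set ℝ), ∃ a : ℝ, 0 ≤ a ∧ q.1 = a • x ∧ a + ∑ i, |q.2 i| = 1} :=
        ContinuousOn.inv₀ hφc.norm.continuousOn (fun q hq => norm_ne_zero_iff.2 (hne q hq))
      exact h1.smul hφc.continuousOn
    refine hf.comp hc ?_
    · intro q hq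
      have := norm_ne_zero_iff.2 (hne q hq)
      simp [norm_smul, this]) (by
    intro q hq
    have h1 : φ ((((-(LinearMap.id : ℝ →ₗ[ℝ] ℝ))).prodMap
        (-(LinearMap.id : (Fin n → ℝ) →ₗ[ℝ] (Fin n → ℝ)))) q) = - φ q := by
      rw [← map_neg]
      congr 1
    show f _ = - f _
    rw [h1, norm_neg, smul_neg]
    refine hodd _ ?_
    have := norm_ne_zero_iff.2 (hne q hq)
    simp [norm_smul, this])
  refine ⟨‖φ q‖⁻¹ • φ q, ?_, hz⟩
  have := norm_ne_zero_iff.2 (hne q hq)
  simp [norm_smul, this]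

end Pool.Agent.helper7.MC
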