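import Pool.Agent.helper7.MC.Expl

set_option autoImplicit false

/-!
# MC (MP_56b5c1), section 3: the bounds at time zero and the explicit curvature estimate
-/

noncomputable section

namespace Pool.Agent.helper7.MC

open Filter Topology

open scoped RealInnerProductSpace

section Bounds

variable {n : ℕ} {V A H : Type*} [NormedAddCommGroup V] [InnerProductSpace ℝ V]
    [NormedAddCommGroup A] [InnerProductSpace ℝ A] [NormedAddCommGroup H]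
    [InnerProductSpace ℝ H] (D : TData n V A H)
    (j : EuclideanSpace ℝ (Fin (n + 1)) →L[ℝ] V)
    (y y1 : ℝ → EuclideanSpace ℝ (Fin (n + 1))) (s σ : EuclideanSpace ℝ (Fin n))

theorem cosv_abs (s : EuclideanSpace ℝ (Fin n)) (i : Fin n) : |cosv s i| ≤ 1 :=
  Real.abs_cos_le_one _

theorem sinv_abs (s : EuclideanSpace ℝ (Fin n)) (i : Fin n) : |sinv s i| ≤ 1 :=
  Real.abs_sin_le_one _

theorem norm_had_cosv (a s : EuclideanSpace ℝ (Fin n)) : ‖had a (cosv s)‖ ≤ ‖a‖ :=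
  norm_had_le_of _ _ (cosv_abs s)

theorem norm_had_sinv (a s : EuclideanSpace ℝ (Fin n)) : ‖had a (sinv s)‖ ≤ ‖a‖ :=
  norm_had_le_of _ _ (sinv_abs s)

theorem norm_had2_cosv (a b s : EuclideanSpace ℝ (Fin n)) :
    ‖had a (had b (cosv s))‖ ≤ ‖a‖ * ‖b‖ :=
  (norm_had_le _ _).trans (mul_le_mul_of_nonneg_left (norm_had_cosv b s) (norm_nonneg _))

theorem norm_had2_sinv (a b s : EuclideanSpace ℝ (Fin n)) :
    ‖had a (had b (sinv s))‖ ≤ ‖a‖ * ‖b‖ :=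
  (norm_had_le _ _).trans (mul_le_mul_of_nonneg_left (norm_had_sinv b s) (norm_nonneg _))

theorem TData.norm_ab (k : ℝ) (u : EuclideanSpace ℝ (Fin (n + 1)))
    (r : EuclideanSpace ℝ (Fin n)) :
    ‖k • D.α u + D.β r‖ ^ 2 = k ^ 2 * ‖u‖ ^ 2 + ‖r‖ ^ 2 := by
  have h1 := D.norm_abc (k • u) r 0
  rw [map_smul, map_zero, add_zero, norm_smul, mul_pow, Real.norm_eq_abs, sq_abs] at h1
  rw [h1]
  ring

variable (hn : 1 ≤ n) (hj : ∀ u, ‖j u‖ = ‖u‖) (hy0 : ‖y 0‖ = 1) (hy1 : ⟪y 0, y1 0⟫ = 0)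
  {X : ℝ} (hX : 0 ≤ X) (hX2 : n * ‖y1 0‖ ^ 2 + ‖σ‖ ^ 2 = X ^ 2)

include hn hX hX2 in
theorem om_le : ‖y1 0‖ ≤ X := by
  have hn1 : (1 : ℝ) ≤ n := by exact_mod_cast hn
  refine (sq_le_sq₀ (norm_nonneg _) hX).1 ?_
  nlinarith [sq_nonneg ‖y1 0‖, sq_nonneg ‖σ‖]

include hX hX2 in
theorem sig_le : ‖σ‖ ≤ X := by
  refine (sq_le_sq₀ (norm_nonneg _) hX).1 ?_
  have : 0 ≤ (n : ℝ) * ‖y1 0‖ ^ 2 := by positivity
  linarith

include hX hX2 in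
theorem sqrt_om_le : √n * ‖y1 0‖ ≤ X := by
  refine (sq_le_sq₀ (by positivity) hX).1 ?_
  rw [mul_pow, Real.sq_sqrt (Nat.cast_nonneg n)]
  nlinarith [sq_nonneg ‖σ‖]

include hy0 in
theorem base_le : ‖√n • D.α (y 0) + D.β (sinv (s + (0 : ℝ) • σ))‖ ≤ 2 * √n := by
  refine (sq_le_sq₀ (norm_nonneg _) (by positivity)).1 ?_
  rw [D.norm_ab, hy0, mul_pow, Real.sq_sqrt (Nat.cast_nonneg n)]
  have h1 := norm_sinv_le (s + (0 : ℝ) • σ)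
  have h2 : (0 : ℝ) ≤ n := Nat.cast_nonneg n
  nlinarith

include hy1 in
/-- decomposition of the velocity of `φ` -/
theorem Phi1_eq : Phi1 D j y y1 s σ 0 = D.T (j (y1 0)) (√n • D.α (y 0) +
    D.β (sinv (s + (0 : ℝ) • σ))) +
      D.JJ (j (y 0)) (y 0) (s + (0 : ℝ) • σ) (√n • y1 0) σ 0 := by
  unfold Phi1 TData.JJ
  rw [real_inner_smul_right, hy1, mul_zero, zero_smul ℝ (y 0), sub_zero, map_zero D.γ,
    add_zero (D.α (√n • y1 0) + _), map_smul]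
  abel

include hy0 hy1 hj hn hX hX2 in
theorem Phi1_bound : ‖Phi1 D j y y1 s σ 0‖ ≤ 3 * X := by
  have e0 := Phi1_eq D j y y1 s σ hy1
  have e1 : ‖D.JJ (j (y 0)) (y 0) (s + (0 : ℝ) • σ) (√n • y1 0) σ 0‖ = X := by
    have h1 := D.norm_JJ (j (y 0)) (by rw [hj, hy0]) (y 0) (s + (0 : ℝ) • σ) (√n • y1 0)
      (by rw [real_inner_smul_right, hy1, mul_zero]) σ 0
    rw [norm_smul, mul_pow, Real.norm_eq_abs, sq_abs, Real.sq_sqrt (Nat.cast_nonneg n)] at h1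
    have h2 : ‖D.JJ (j (y 0)) (y 0) (s + (0 : ℝ) • σ) (√n • y1 0) σ 0‖ ^ 2 = X ^ 2 := by
      rw [h1, ← hX2]
      ring
    exact (sq_eq_sq₀ (norm_nonneg _) hX).1 h2
  have e2 : ‖D.T (j (y1 0)) (√n • D.α (y 0) + D.β (sinv (s + (0 : ℝ) • σ)))‖ ≤ 2 * X := by
    rw [D.norm_T, hj]
    have h1 := base_le D y s σ hy0
    have h2 := sqrt_om_le y1 σ hX hX2
    calc ‖y1 0‖ * ‖√n • D.α (y 0) + D.β (sinv (s + (0 : ℝ) • σ))‖
        ≤ ‖y1 0‖ * (2 * √n) := mul_le_mul_of_nonneg_left h1 (norm_nonneg _)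
      _ = 2 * (√n * ‖y1 0‖) := by ring
      _ ≤ 2 * X := by linarith
  rw [e0]
  refine (norm_add_le _ _).trans ?_
  rw [e1]
  linarith

include hy0 hj hn hX hX2 in
theorem Phi2_bound : ‖Phi2 D j y y1 s σ (-(‖y1 0‖ ^ 2) • y 0) 0‖ ≤ 6 * X ^ 2 := by
  obtain ⟨ω, hω⟩ : ∃ ω : ℝ, ω = ‖y1 0‖ := ⟨_, rfl⟩
  have o1 := om_le y1 σ hn hX hX2
  have o2 := sig_le y1 σ hX hX2
  have o3 := sqrt_om_le y1 σ hX hX2
  rw [← hω] at o1 o3 hX2 ⊢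
  have hω0 : 0 ≤ ω := by rw [hω]; exact norm_nonneg _
  have hy2 : ‖-(ω ^ 2) • y 0‖ = ω ^ 2 := by
    rw [norm_smul, hy0, mul_one, norm_neg, Real.norm_eq_abs, abs_of_nonneg (by positivity)]
  have t1 : ‖D.T (j (-(ω ^ 2) • y 0)) (√n • D.α (y 0) + D.β (sinv (s + (0 : ℝ) • σ)))‖
      ≤ 2 * X ^ 2 := by
    rw [D.norm_T, hj, hy2]
    calc ω ^ 2 * ‖√n • D.α (y 0) + D.β (sinv (s + (0 : ℝ) • σ))‖
        ≤ ω ^ 2 * (2 * √n) := mul_le_mul_of_nonneg_left (base_le D y s σ hy0) (by positivity)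
      _ = 2 * (ω * (√n * ω)) := by ring
      _ ≤ 2 * (X * X) := by
          have := mul_le_mul o1 o3 (by positivity) hX
          linarith
      _ = 2 * X ^ 2 := by ring
  have t2 : ‖(2 : ℝ) • D.T (j (y1 0)) (√n • D.α (y1 0) + D.β (had σ (cosv (s + (0 : ℝ) • σ))))‖
      ≤ 2 * X ^ 2 := by
    have h1 : ‖√n • D.α (y1 0) + D.β (had σ (cosv (s + (0 : ℝ) • σ)))‖ ≤ X := by
      refine (sq_le_sq₀ (norm_nonneg _) hX).1 ?_
      rw [D.norm_ab, Real.sq_sqrt (Nat.cast_nonneg n), ← hω, ← hX2]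
      have := norm_had_cosv σ (s + (0 : ℝ) • σ)
      have h3 := pow_le_pow_left₀ (norm_nonneg _) this 2
      linarith
    rw [norm_smul, Real.norm_eq_abs, abs_of_pos (by norm_num : (0 : ℝ) < 2), D.norm_T, hj, ← hω]
    have := mul_le_mul o1 h1 (norm_nonneg _) hX
    calc 2 * (ω * ‖√n • D.α (y1 0) + D.β (had σ (cosv (s + (0 : ℝ) • σ)))‖) ≤ 2 * (X * X) := by
          linarith
      _ = 2 * X ^ 2 := by ring
  have t3 : ‖D.T (j (y 0)) (√n • D.α (-(ω ^ 2) • y 0) -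
      D.β (had σ (had σ (sinv (s + (0 : ℝ) • σ)))))‖ ≤ X ^ 2 := by
    rw [D.norm_T, hj, hy0, one_mul]
    refine (norm_sub_le _ _).trans ?_
    rw [norm_smul, D.norm_α, hy2, D.norm_β, Real.norm_eq_abs, abs_of_nonneg (Real.sqrt_nonneg _)]
    have h1 := norm_had2_sinv σ σ (s + (0 : ℝ) • σ)
    have hn1 : (1 : ℝ) ≤ n := by exact_mod_cast hn
    have h3 : √n ≤ (n : ℝ) := by
      rw [Real.sqrt_le_left (by linarith)]
      nlinarith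
    have h4 : √n * ω ^ 2 ≤ n * ω ^ 2 := mul_le_mul_of_nonneg_right h3 (sq_nonneg _)
    rw [← hX2]
    calc √n * ω ^ 2 + ‖had σ (had σ (sinv (s + (0 : ℝ) • σ)))‖
        ≤ n * ω ^ 2 + ‖σ‖ * ‖σ‖ := by linarith
      _ = n * ω ^ 2 + ‖σ‖ ^ 2 := by ring
  have t4 : ‖D.I (had σ (had σ (cosv (s + (0 : ℝ) • σ))))‖ ≤ X ^ 2 := by
    rw [D.norm_I]
    have h1 := norm_had2_cosv σ σ (s + (0 : ℝ) • σ)
    have h2 := mul_le_mul o2 o2 (norm_nonneg _) hX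
    calc ‖had σ (had σ (cosv (s + (0 : ℝ) • σ)))‖ ≤ X * X := by linarith
      _ = X ^ 2 := by ring
  unfold Phi2
  refine (norm_sub_le _ _).trans ?_
  have h1 := norm_add_le (D.T (j (-(ω ^ 2) • y 0)) (√n • D.α (y 0) +
    D.β (sinv (s + (0 : ℝ) • σ))) + (2 : ℝ) • D.T (j (y1 0)) (√n • D.α (y1 0) +
      D.β (had σ (cosv (s + (0 : ℝ) • σ))))) (D.T (j (y 0)) (√n • D.α (-(ω ^ 2) • y 0) -
      D.β (had σ (had σ (sinv (s + (0 : ℝ) • σ))))))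
  have h2 := norm_add_le (D.T (j (-(ω ^ 2) • y 0)) (√n • D.α (y 0) +
    D.β (sinv (s + (0 : ℝ) • σ)))) ((2 : ℝ) • D.T (j (y1 0)) (√n • D.α (y1 0) +
      D.β (had σ (cosv (s + (0 : ℝ) • σ)))))
  linarith

variable {N : ℝ} (hN : 0 ≤ N) (u : EuclideanSpace ℝ (Fin (n + 1)))
  (r : EuclideanSpace ℝ (Fin n)) (c : ℝ) (hu : ⟪y 0, u⟫ = 0)
  (hN2 : ‖u‖ ^ 2 + ‖r‖ ^ 2 + c ^ 2 = N ^ 2)

include hN hu hN2 in
theorem abc_le : ‖D.α (u - ⟪y 0, u⟫ • y 0) + D.β (had r (cosv (s + (0 : ℝ) • σ))) + D.γ c‖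
    ≤ N := by
  refine (sq_le_sq₀ (norm_nonneg _) hN).1 ?_
  rw [hu, zero_smul, sub_zero, D.norm_abc, ← hN2]
  have := pow_le_pow_left₀ (norm_nonneg _) (norm_had_cosv r (s + (0 : ℝ) • σ)) 2
  linarith

include hy0 hj hn hX hX2 hN hu hN2 in
theorem JJ1_bound : ‖JJ1 D j y y1 s σ u r c 0‖ ≤ 4 * X * N := by
  have o1 := om_le y1 σ hn hX hX2
  have o2 := sig_le y1 σ hX hX2
  have hr : ‖r‖ ≤ N := by
    refine (sq_le_sq₀ (norm_nonneg _) hN).1 ?_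
    nlinarith [sq_nonneg ‖u‖, sq_nonneg c]
  have hu' : ‖u‖ ≤ N := by
    refine (sq_le_sq₀ (norm_nonneg _) hN).1 ?_
    nlinarith [sq_nonneg ‖r‖, sq_nonneg c]
  have t1 : ‖D.T (j (y1 0)) (D.α (u - ⟪y 0, u⟫ • y 0) + D.β (had r (cosv (s + (0 : ℝ) • σ)))
      + D.γ c)‖ ≤ X * N := by
    rw [D.norm_T, hj]
    exact mul_le_mul o1 (abc_le D y s σ hN u r c hu hN2) (norm_nonneg _) hX
  have t2 : ‖D.T (j (y 0)) (D.α (⟪y1 0, u⟫ • y 0 + ⟪y 0, u⟫ • y1 0) +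
      D.β (had r (had σ (sinv (s + (0 : ℝ) • σ)))))‖ ≤ 2 * (X * N) := by
    rw [D.norm_T, hj, hy0, one_mul, hu, zero_smul, add_zero]
    refine (norm_add_le _ _).trans ?_
    rw [D.norm_α, D.norm_β, norm_smul, hy0, mul_one, Real.norm_eq_abs]
    have h1 := abs_real_inner_le_norm (y1 0) u
    have h2 := mul_le_mul o1 hu' (norm_nonneg _) hX
    have h3 := norm_had2_sinv r σ (s + (0 : ℝ) • σ)
    have h4 := mul_le_mul o2 hr (norm_nonneg _) hX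
    nlinarith
  have t3 : ‖D.I (had r (had σ (cosv (s + (0 : ℝ) • σ))))‖ ≤ X * N := by
    rw [D.norm_I]
    have h3 := norm_had2_cosv r σ (s + (0 : ℝ) • σ)
    have h4 := mul_le_mul o2 hr (norm_nonneg _) hX
    nlinarith
  unfold JJ1
  refine (norm_sub_le _ _).trans ?_
  have h1 := norm_sub_le (D.T (j (y1 0)) (D.α (u - ⟪y 0, u⟫ • y 0) +
    D.β (had r (cosv (s + (0 : ℝ) • σ))) + D.γ c))
    (D.T (j (y 0)) (D.α (⟪y1 0, u⟫ • y 0 + ⟪y 0, u⟫ • y1 0) +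
      D.β (had r (had σ (sinv (s + (0 : ℝ) • σ))))))
  linarith

include hy0 hj hn hX hX2 hN hu hN2 in
theorem JJ2_bound : ‖JJ2 D j y y1 s σ u r c (-(‖y1 0‖ ^ 2) • y 0) 0‖ ≤ 9 * X ^ 2 * N := by
  obtain ⟨ω, hω⟩ : ∃ ω : ℝ, ω = ‖y1 0‖ := ⟨_, rfl⟩
  have o1 := om_le y1 σ hn hX hX2
  have o2 := sig_le y1 σ hX hX2
  rw [← hω] at o1 hX2 ⊢
  have hω0 : 0 ≤ ω := by rw [hω]; exact norm_nonneg _
  have hy2 : ‖-(ω ^ 2) • y 0‖ = ω ^ 2 := by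
    rw [norm_smul, hy0, mul_one, norm_neg, Real.norm_eq_abs, abs_of_nonneg (by positivity)]
  have hr : ‖r‖ ≤ N := by
    refine (sq_le_sq₀ (norm_nonneg _) hN).1 ?_
    nlinarith [sq_nonneg ‖u‖, sq_nonneg c]
  have hu' : ‖u‖ ≤ N := by
    refine (sq_le_sq₀ (norm_nonneg _) hN).1 ?_
    nlinarith [sq_nonneg ‖r‖, sq_nonneg c]
  have q1 : ω ^ 2 ≤ X ^ 2 := pow_le_pow_left₀ hω0 o1 2
  have q2 : |⟪y1 0, u⟫| ≤ X * N := by
    refine (abs_real_inner_le_norm (y1 0) u).trans ?_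
    rw [← hω]
    exact mul_le_mul o1 hu' (norm_nonneg _) hX
  have q3 : ‖r‖ * ‖σ‖ ≤ X * N := by
    have := mul_le_mul o2 hr (norm_nonneg _) hX
    linarith
  have q4 : ‖r‖ * (‖σ‖ * ‖σ‖) ≤ X ^ 2 * N := by
    have := mul_le_mul q3 o2 (norm_nonneg _) (by positivity)
    nlinarith
  have t1 : ‖D.T (j (-(ω ^ 2) • y 0)) (D.α (u - ⟪y 0, u⟫ • y 0) +
      D.β (had r (cosv (s + (0 : ℝ) • σ))) + D.γ c)‖ ≤ X ^ 2 * N := by
    rw [D.norm_T, hj, hy2]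
    exact mul_le_mul q1 (abc_le D y s σ hN u r c hu hN2) (norm_nonneg _) (by positivity)
  have t2 : ‖(2 : ℝ) • D.T (j (y1 0)) (D.α (⟪y1 0, u⟫ • y 0 + ⟪y 0, u⟫ • y1 0) +
      D.β (had r (had σ (sinv (s + (0 : ℝ) • σ)))))‖ ≤ 4 * (X ^ 2 * N) := by
    rw [norm_smul, Real.norm_eq_abs, abs_of_pos (by norm_num : (0 : ℝ) < 2), D.norm_T, hj, ← hω,
      hu, zero_smul, add_zero]
    have h1 : ‖D.α (⟪y1 0, u⟫ • y 0) + D.β (had r (had σ (sinv (s + (0 : ℝ) • σ))))‖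
        ≤ 2 * (X * N) := by
      refine (norm_add_le _ _).trans ?_
      rw [D.norm_α, D.norm_β, norm_smul, hy0, mul_one, Real.norm_eq_abs]
      have h3 := norm_had2_sinv r σ (s + (0 : ℝ) • σ)
      linarith
    have h2 := mul_le_mul o1 h1 (norm_nonneg _) hX
    nlinarith
  have t3 : ‖D.T (j (y 0)) (D.α (⟪-(ω ^ 2) • y 0, u⟫ • y 0 + (2 * ⟪y1 0, u⟫) • y1 0 +
      ⟪y 0, u⟫ • -(ω ^ 2) • y 0) + D.β (had r (had σ (had σ (cosv (s + (0 : ℝ) • σ))))))‖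
      ≤ 3 * (X ^ 2 * N) := by
    rw [D.norm_T, hj, hy0, one_mul, real_inner_smul_left, hu, mul_zero, zero_smul, zero_smul,
      add_zero, zero_add]
    refine (norm_add_le _ _).trans ?_
    rw [D.norm_α, D.norm_β, norm_smul, ← hω, Real.norm_eq_abs, abs_mul,
      abs_of_pos (by norm_num : (0 : ℝ) < 2)]
    have h3 := norm_had_le r (had σ (had σ (cosv (s + (0 : ℝ) • σ))))
    have h4 := norm_had2_cosv σ σ (s + (0 : ℝ) • σ)
    have h5 : ‖r‖ * ‖had σ (had σ (cosv (s + (0 : ℝ) • σ)))‖ ≤ ‖r‖ * (‖σ‖ * ‖σ‖) :=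
      mul_le_mul_of_nonneg_left h4 (norm_nonneg _)
    have h6 := mul_le_mul q2 o1 hω0 (by positivity)
    nlinarith
  have t4 : ‖D.I (had r (had σ (had σ (sinv (s + (0 : ℝ) • σ)))))‖ ≤ X ^ 2 * N := by
    rw [D.norm_I]
    have h3 := norm_had_le r (had σ (had σ (sinv (s + (0 : ℝ) • σ))))
    have h4 := norm_had2_sinv σ σ (s + (0 : ℝ) • σ)
    have h5 : ‖r‖ * ‖had σ (had σ (sinv (s + (0 : ℝ) • σ)))‖ ≤ ‖r‖ * (‖σ‖ * ‖σ‖) :=
      mul_le_mul_of_nonneg_left h4 (norm_nonneg _)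
    linarith
  unfold JJ2
  refine (norm_add_le _ _).trans ?_
  have h1 := norm_sub_le (D.T (j (-(ω ^ 2) • y 0)) (D.α (u - ⟪y 0, u⟫ • y 0) +
      D.β (had r (cosv (s + (0 : ℝ) • σ))) + D.γ c) -
      (2 : ℝ) • D.T (j (y1 0)) (D.α (⟪y1 0, u⟫ • y 0 + ⟪y 0, u⟫ • y1 0) +
      D.β (had r (had σ (sinv (s + (0 : ℝ) • σ)))))) (D.T (j (y 0)) (D.α (⟪-(ω ^ 2) • y 0, u⟫ • y 0
        + (2 * ⟪y1 0, u⟫) • y1 0 + ⟪y 0, u⟫ • -(ω ^ 2) • y 0) +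
        D.β (had r (had σ (had σ (cosv (s + (0 : ℝ) • σ)))))))
  have h2 := norm_sub_le (D.T (j (-(ω ^ 2) • y 0)) (D.α (u - ⟪y 0, u⟫ • y 0) +
      D.β (had r (cosv (s + (0 : ℝ) • σ))) + D.γ c))
      ((2 : ℝ) • D.T (j (y1 0)) (D.α (⟪y1 0, u⟫ • y 0 + ⟪y 0, u⟫ • y1 0) +
      D.β (had r (had σ (sinv (s + (0 : ℝ) • σ))))))
  linarith

end Bounds

section Final

variable {n : ℕ} {V A H : Type*} [NormedAddCommGroup V] [InnerProductSpace ℝ V]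
    [NormedAddCommGroup A] [InnerProductSpace ℝ A] [NormedAddCommGroup H]
    [InnerProductSpace ℝ H] (D : TData n V A H)

/-- The parameter space of `J`. -/
abbrev WW (n : ℕ) (y0 : EuclideanSpace ℝ (Fin (n + 1))) : Type :=
  WithLp 2 (((ℝ ∙ y0)ᗮ : Submodule ℝ (EuclideanSpace ℝ (Fin (n + 1)))) ×
    WithLp 2 (EuclideanSpace ℝ (Fin n) × ℝ))

theorem WW_norm (y0 : EuclideanSpace ℝ (Fin (n + 1))) (w : WW n y0) :
    ‖w‖ ^ 2 = ‖(w.fst : EuclideanSpace ℝ (Fin (n + 1)))‖ ^ 2 + ‖w.snd.fst‖ ^ 2 + w.snd.snd ^ 2 := by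
  rw [WithLp.prod_norm_sq_eq_of_L2, WithLp.prod_norm_sq_eq_of_L2, Submodule.coe_norm,
    Real.norm_eq_abs, sq_abs]
  ring

theorem WW_orth (y0 : EuclideanSpace ℝ (Fin (n + 1))) (w : WW n y0) :
    ⟪y0, (w.fst : EuclideanSpace ℝ (Fin (n + 1)))⟫ = 0 :=
  Submodule.mem_orthogonal_singleton_iff_inner_right.1 w.fst.2

/-- The map `J` at time zero. -/
def J0map (p : V) (y0 : EuclideanSpace ℝ (Fin (n + 1))) (s : EuclideanSpace ℝ (Fin n))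
    (hp : ‖p‖ = 1) : WW n y0 →L[ℝ] H :=
  LinearMap.mkContinuous
    { toFun := fun w => D.JJ p y0 s (w.fst : EuclideanSpace ℝ (Fin (n + 1))) w.snd.fst w.snd.snd
      map_add' := fun w w' => by
        show D.JJ p y0 s ((w.fst : EuclideanSpace ℝ (Fin (n + 1))) + w'.fst)
          (w.snd.fst + w'.snd.fst) (w.snd.snd + w'.snd.snd) = _
        rw [D.JJ_add]
      map_smul' := fun k w => by
        show D.JJ p y0 s (k • (w.fst : EuclideanSpace ℝ (Fin (n + 1))))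
          (k • w.snd.fst) (k * w.snd.snd) = _
        rw [D.JJ_smul]
        rfl } 1 (fun w => by
    rw [one_mul]
    refine (sq_le_sq₀ (norm_nonneg _) (norm_nonneg _)).1 (le_of_eq ?_)
    show ‖D.JJ p y0 s (w.fst : EuclideanSpace ℝ (Fin (n + 1))) w.snd.fst w.snd.snd‖ ^ 2 = _
    rw [D.norm_JJ p hp y0 s _ (WW_orth y0 w), WW_norm])

theorem J0map_apply (p : V) (y0 : EuclideanSpace ℝ (Fin (n + 1))) (s : EuclideanSpace ℝ (Fin n))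
    (hp : ‖p‖ = 1) (w : WW n y0) :
    J0map D p y0 s hp w =
      D.JJ p y0 s (w.fst : EuclideanSpace ℝ (Fin (n + 1))) w.snd.fst w.snd.snd := rfl

theorem J0map_norm (p : V) (y0 : EuclideanSpace ℝ (Fin (n + 1))) (s : EuclideanSpace ℝ (Fin n))
    (hp : ‖p‖ = 1) (w : WW n y0) : ‖J0map D p y0 s hp w‖ = ‖w‖ := by
  refine (sq_eq_sq₀ (norm_nonneg _) (norm_nonneg _)).1 ?_
  rw [J0map_apply, D.norm_JJ p hp y0 s _ (WW_orth y0 w), WW_norm]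

/-- `J` is orthogonal to vectors `T p' a` with `p' ⊥ p`. -/
theorem TData.inner_T_JJ (p p' : V) (hpp : ⟪p', p⟫ = 0) (a : A)
    (y : EuclideanSpace ℝ (Fin (n + 1))) (s : EuclideanSpace ℝ (Fin n))
    (u : EuclideanSpace ℝ (Fin (n + 1))) (r : EuclideanSpace ℝ (Fin n)) (c : ℝ) :
    ⟪D.T p' a, D.JJ p y s u r c⟫ = 0 := by
  unfold TData.JJ
  rw [inner_sub_right, D.hT, hpp, D.hTI]
  ring

variable [CompleteSpace H]
    (j : EuclideanSpace ℝ (Fin (n + 1)) →L[ℝ] V)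
    (y y1 : ℝ → EuclideanSpace ℝ (Fin (n + 1))) (s σ : EuclideanSpace ℝ (Fin n))

/-- THE EXPLICIT CURVATURE ESTIMATE. `φ t = Phi (j (y t)) (y t) (s + t σ)` with `y` a curve on the
unit sphere, acceleration `- ‖y'‖² y` at time zero; `v` a curve of unit vectors orthogonal to the
vectors `JJ`; `ν` orthogonal to all vectors which are orthogonal to `v 0` and to the vectors `JJ` at
time zero. Then the acceleration of `φ + v / 10` at time zero satisfies the estimate. -/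
theorem explicit_estimate (hn : 1 ≤ n) (hj : ∀ u u', ⟪j u, j u'⟫ = ⟪u, u'⟫) (hy0 : ‖y 0‖ = 1)
    (hy1 : ⟪y 0, y1 0⟫ = 0) (hy : ∀ t, HasDerivAt y (y1 t) t)
    (hy2 : HasDerivAt y1 (-(‖y1 0‖ ^ 2) • y 0) 0)
    (v v' : ℝ → H) (v2 : H) (hv : ∀ t, HasDerivAt v (v' t) t) (hv2 : HasDerivAt v' v2 0)
    (hvn : ∀ t, ‖v t‖ = 1)
    (hvJ : ∀ t u r c, ⟪v t, D.JJ (j (y t)) (y t) (s + t • σ) u r c⟫ = 0)
    (ν : H) (hν : ∀ q : H, ⟪q, v 0⟫ = 0 →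
      (∀ u r c, ⟪q, D.JJ (j (y 0)) (y 0) s u r c⟫ = 0) → ⟪ν, q⟫ = 0) :
    |⟪ν, Phi2 D j y y1 s σ (-(‖y1 0‖ ^ 2) • y 0) 0 + (1 / 10 : ℝ) • v2⟫| ≤
      662 * ‖Phi1 D j y y1 s σ 0 + (1 / 10 : ℝ) • v' 0‖ ^ 2 * ‖ν‖ := by
  have hj' : ∀ u, ‖j u‖ = ‖u‖ := by
    intro u
    have h1 := hj u u
    rw [real_inner_self_eq_norm_sq, real_inner_self_eq_norm_sq] at h1
    exact (sq_eq_sq₀ (norm_nonneg _) (norm_nonneg _)).1 h1
  obtain ⟨X, hX, hX2⟩ : ∃ X : ℝ, 0 ≤ X ∧ n * ‖y1 0‖ ^ 2 + ‖σ‖ ^ 2 = X ^ 2 :=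
    ⟨√(n * ‖y1 0‖ ^ 2 + ‖σ‖ ^ 2), Real.sqrt_nonneg _, (Real.sq_sqrt (by positivity)).symm⟩
  have hp : ‖j (y 0)‖ = 1 := by rw [hj', hy0]
  have hs0 : s + (0 : ℝ) • σ = s := by rw [zero_smul, add_zero]
  have hw1o : √n • y1 0 ∈ ((ℝ ∙ (y 0))ᗮ : Submodule ℝ (EuclideanSpace ℝ (Fin (n + 1)))) := by
    rw [Submodule.mem_orthogonal_singleton_iff_inner_right, real_inner_smul_right, hy1, mul_zero]
  let w1 : WW n (y 0) := WithLp.toLp 2 (⟨√n • y1 0, hw1o⟩, WithLp.toLp 2 (σ, 0))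
  have hw1 : ‖w1‖ = X := by
    refine (sq_eq_sq₀ (norm_nonneg _) hX).1 ?_
    rw [WW_norm]
    show ‖√n • y1 0‖ ^ 2 + ‖σ‖ ^ 2 + (0 : ℝ) ^ 2 = X ^ 2
    rw [norm_smul, mul_pow, Real.norm_eq_abs, sq_abs, Real.sq_sqrt (Nat.cast_nonneg n), ← hX2]
    ring
  have key := core_estimate (H := H) (W := WW n (y 0)) (C0 := 3) (C1 := 7) (C2 := 4) (C3 := 9)
    (ρ := 1 / 10) (X := X) hX (by norm_num) (by norm_num) (by norm_num) (by norm_num)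
    (by norm_num) (by norm_num) (J0map D (j (y 0)) (y 0) s hp)
    (fun t w => D.JJ (j (y t)) (y t) (s + t • σ) (w.fst : EuclideanSpace ℝ (Fin (n + 1)))
      w.snd.fst w.snd.snd)
    (fun t w => JJ1 D j y y1 s σ (w.fst : EuclideanSpace ℝ (Fin (n + 1)))
      w.snd.fst w.snd.snd t)
    (fun w => JJ2 D j y y1 s σ (w.fst : EuclideanSpace ℝ (Fin (n + 1)))
      w.snd.fst w.snd.snd (-(‖y1 0‖ ^ 2) • y 0) 0)
    (fun w => by rw [J0map_apply, hs0])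
    (fun t w => JJ_hasDerivAt D j y y1 s σ _ _ _ t (hy t))
    (fun w => JJ1_hasDerivAt D j y y1 s σ _ _ _ 0 _ (hy 0) hy2)
    (J0map_norm D (j (y 0)) (y 0) s hp)
    (fun w => JJ1_bound D j y y1 s σ hn hj' hy0 hX hX2 (norm_nonneg w) _ _ _ (WW_orth _ w)
      (WW_norm _ w).symm)
    (fun w => JJ2_bound D j y y1 s σ hn hj' hy0 hX hX2 (norm_nonneg w) _ _ _ (WW_orth _ w)
      (WW_norm _ w).symm)
    v v' v2 hv hv2 hvn (fun t w => hvJ t _ _ _)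
    (Phi1 D j y y1 s σ 0) (Phi2 D j y y1 s σ (-(‖y1 0‖ ^ 2) • y 0) 0) w1 hw1.ge (by
      intro w
      have e0 : Phi1 D j y y1 s σ 0 - J0map D (j (y 0)) (y 0) s hp w1
          = D.T (j (y1 0)) (√n • D.α (y 0) + D.β (sinv (s + (0 : ℝ) • σ))) := by
        rw [J0map_apply]
        show Phi1 D j y y1 s σ 0 - D.JJ (j (y 0)) (y 0) s (√n • y1 0) σ 0 = _
        unfold Phi1 TData.JJ
        rw [real_inner_smul_right, hy1, mul_zero, zero_smul ℝ (y 0), sub_zero, map_zero D.γ,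
          add_zero (D.α (√n • y1 0) + _), map_smul, hs0]
        abel
      rw [e0, J0map_apply]
      exact D.inner_T_JJ _ _ (by rw [hj, real_inner_comm, hy1]) _ _ _ _ _ _)
    (Phi1_bound D j y y1 s σ hn hj' hy0 hy1 hX hX2)
    ((Phi2_bound D j y y1 s σ hn hj' hy0 hX hX2).trans (by nlinarith [sq_nonneg X])) ν (by
      intro q hq1 hq2
      refine hν q hq1 fun u r c => ?_
      have ho : u - ⟪y 0, u⟫ • y 0 ∈
          ((ℝ ∙ (y 0))ᗮ : Submodule ℝ (EuclideanSpace ℝ (Fin (n + 1)))) := by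
        rw [Submodule.mem_orthogonal_singleton_iff_inner_right, inner_sub_right,
          real_inner_smul_right, real_inner_self_eq_norm_sq, hy0]
        ring
      have h1 := hq2 (WithLp.toLp 2 (⟨u - ⟪y 0, u⟫ • y 0, ho⟩, WithLp.toLp 2 (r, c)))
      rw [J0map_apply] at h1
      have h2 : D.JJ (j (y 0)) (y 0) s (u - ⟪y 0, u⟫ • y 0) r c
          = D.JJ (j (y 0)) (y 0) s u r c := by
        have h3 := Submodule.mem_orthogonal_singleton_iff_inner_right.1 ho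
        unfold TData.JJ
        rw [h3, zero_smul, sub_zero]
      rw [← h2]
      exact h1)
  refine key.trans ?_
  have hc : (8 * 7 + 4 * 4 * (1 + 2 * 3) + 4 * (1 / 10) * 9 + (1 + 2 * 3) ^ 2 / (1 / 10) : ℝ)
      ≤ 662 := by norm_num
  have h5 : 0 ≤ ‖Phi1 D j y y1 s σ 0 + (1 / 10 : ℝ) • v' 0‖ ^ 2 := by positivity
  exact mul_le_mul_of_nonneg_right (mul_le_mul_of_nonneg_right hc h5) (norm_nonneg _)

/-- First order part of the estimate. -/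
theorem explicit_first (hn : 1 ≤ n) (hj : ∀ u u', ⟪j u, j u'⟫ = ⟪u, u'⟫) (hy0 : ‖y 0‖ = 1)
    (hy1 : ⟪y 0, y1 0⟫ = 0) (hy : ∀ t, HasDerivAt y (y1 t) t)
    (v v' : ℝ → H) (hv : ∀ t, HasDerivAt v (v' t) t)
    (hvn : ∀ t, ‖v t‖ = 1)
    (hvJ : ∀ t u r c, ⟪v t, D.JJ (j (y t)) (y t) (s + t • σ) u r c⟫ = 0)
    (h0 : Phi1 D j y y1 s σ 0 + (1 / 10 : ℝ) • v' 0 = 0) :
    y1 0 = 0 ∧ σ = 0 ∧ v' 0 = 0 := by
  have hj' : ∀ u, ‖j u‖ = ‖u‖ := by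
    intro u
    have h1 := hj u u
    rw [real_inner_self_eq_norm_sq, real_inner_self_eq_norm_sq] at h1
    exact (sq_eq_sq₀ (norm_nonneg _) (norm_nonneg _)).1 h1
  obtain ⟨X, hX, hX2⟩ : ∃ X : ℝ, 0 ≤ X ∧ n * ‖y1 0‖ ^ 2 + ‖σ‖ ^ 2 = X ^ 2 :=
    ⟨√(n * ‖y1 0‖ ^ 2 + ‖σ‖ ^ 2), Real.sqrt_nonneg _, (Real.sq_sqrt (by positivity)).symm⟩
  have hp : ‖j (y 0)‖ = 1 := by rw [hj', hy0]
  have hs0 : s + (0 : ℝ) • σ = s := by rw [zero_smul, add_zero]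
  have hw1o : √n • y1 0 ∈ ((ℝ ∙ (y 0))ᗮ : Submodule ℝ (EuclideanSpace ℝ (Fin (n + 1)))) := by
    rw [Submodule.mem_orthogonal_singleton_iff_inner_right, real_inner_smul_right, hy1, mul_zero]
  let w1 : WW n (y 0) := WithLp.toLp 2 (⟨√n • y1 0, hw1o⟩, WithLp.toLp 2 (σ, 0))
  have hw1 : ‖w1‖ = X := by
    refine (sq_eq_sq₀ (norm_nonneg _) hX).1 ?_
    rw [WW_norm]
    show ‖√n • y1 0‖ ^ 2 + ‖σ‖ ^ 2 + (0 : ℝ) ^ 2 = X ^ 2
    rw [norm_smul, mul_pow, Real.norm_eq_abs, sq_abs, Real.sq_sqrt (Nat.cast_nonneg n), ← hX2]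
    ring
  have key := core_first (H := H) (W := WW n (y 0)) (C0 := 3) (C2 := 4)
    (ρ := 1 / 10) (X := X) hX (by norm_num) (by norm_num) (by norm_num) (by norm_num)
    (J0map D (j (y 0)) (y 0) s hp)
    (fun t w => D.JJ (j (y t)) (y t) (s + t • σ) (w.fst : EuclideanSpace ℝ (Fin (n + 1)))
      w.snd.fst w.snd.snd)
    (fun t w => JJ1 D j y y1 s σ (w.fst : EuclideanSpace ℝ (Fin (n + 1)))
      w.snd.fst w.snd.snd t)
    (fun w => by rw [J0map_apply, hs0])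
    (fun t w => JJ_hasDerivAt D j y y1 s σ _ _ _ t (hy t))
    (J0map_norm D (j (y 0)) (y 0) s hp)
    (fun w => JJ1_bound D j y y1 s σ hn hj' hy0 hX hX2 (norm_nonneg w) _ _ _ (WW_orth _ w)
      (WW_norm _ w).symm)
    v v' hv hvn (fun t w => hvJ t _ _ _)
    (Phi1 D j y y1 s σ 0) w1 hw1.ge (by
      intro w
      have e0 : Phi1 D j y y1 s σ 0 - J0map D (j (y 0)) (y 0) s hp w1
          = D.T (j (y1 0)) (√n • D.α (y 0) + D.β (sinv (s + (0 : ℝ) • σ))) := by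
        rw [J0map_apply]
        show Phi1 D j y y1 s σ 0 - D.JJ (j (y 0)) (y 0) s (√n • y1 0) σ 0 = _
        unfold Phi1 TData.JJ
        rw [real_inner_smul_right, hy1, mul_zero, zero_smul ℝ (y 0), sub_zero, map_zero D.γ,
          add_zero (D.α (√n • y1 0) + _), map_smul, hs0]
        abel
      rw [e0, J0map_apply]
      exact D.inner_T_JJ _ _ (by rw [hj, real_inner_comm, hy1]) _ _ _ _ _ _)
    (Phi1_bound D j y y1 s σ hn hj' hy0 hy1 hX hX2)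
  rw [h0, norm_zero, mul_zero, mul_zero] at key
  have hX0 : X = 0 := le_antisymm key.1 hX
  have hn1 : (1 : ℝ) ≤ n := by exact_mod_cast hn
  rw [hX0] at hX2
  have h1 : ‖y1 0‖ ^ 2 = 0 := by nlinarith [sq_nonneg ‖y1 0‖, sq_nonneg ‖σ‖]
  have h2 : ‖σ‖ ^ 2 = 0 := by nlinarith [sq_nonneg ‖y1 0‖, sq_nonneg ‖σ‖]
  have h3 : ‖v' 0‖ = 0 := by
    have := key.2
    nlinarith [norm_nonneg (v' 0)]
  exact ⟨by simpa using h1, by simpa using h2, norm_eq_zero.1 h3⟩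

/-- the norm of `φ` -/
theorem TData.norm_Phi (p : V) (hp : ‖p‖ = 1) (y : EuclideanSpace ℝ (Fin (n + 1)))
    (hy : ‖y‖ = 1) (s : EuclideanSpace ℝ (Fin n)) : ‖D.Phi p y s‖ ^ 2 = 2 * n := by
  have h1 : ‖sinv s‖ ^ 2 + ‖cosv s‖ ^ 2 = n := by
    rw [norm_sq_eu, norm_sq_eu, ← Finset.sum_add_distrib]
    have : ∀ i ∈ (Finset.univ : Finset (Fin n)), sinv s i ^ 2 + cosv s i ^ 2 = (1 : ℝ) :=
      fun i _ => Real.sin_sq_add_cos_sq (s i)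
    rw [Finset.sum_congr rfl this]
    simp
  unfold TData.Phi
  rw [norm_add_sq_real, D.hTI, D.norm_T, hp, one_mul, D.norm_ab, D.norm_I, hy,
    Real.sq_sqrt (Nat.cast_nonneg n)]
  linarith

end Final

end Pool.Agent.helper7.MC
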