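import Pool.Agent.helper8.MC.UDef
import Pool.Agent.helper7.MC.Expl2

set_option autoImplicit false

/-!
# MC (MP_56b5c1): from `CDat` to `TData`
-/

noncomputable section

namespace Pool.Agent.helper7.MC

open Pool.Agent.helper8.MC

open scoped RealInnerProductSpace

variable {n : ℕ} {V W H : Type} [NormedAddCommGroup V] [InnerProductSpace ℝ V]
  [NormedAddCommGroup W] [InnerProductSpace ℝ W] [NormedAddCommGroup H] [InnerProductSpace ℝ H]

/-- The data of `Expl.lean` from the data `CDat`. -/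
def ofC (D : CDat n V W H) : TData n V (RB n) H where
  T := D.tens
  I := D.incl
  α := (catL n).comp (ContinuousLinearMap.inl ℝ _ _)
  β := ((catL n).comp (ContinuousLinearMap.inr ℝ _ _)).comp
    ((snL n).comp (ContinuousLinearMap.inl ℝ _ _))
  γ := ((catL n).comp (ContinuousLinearMap.inr ℝ _ _)).comp
    ((snL n).comp (ContinuousLinearMap.inr ℝ _ _))
  hT := D.inner_tens
  hI := D.inner_incl
  hTI := D.tens_incl
  hα u u' := by
    show ⟪cat u 0, cat u' 0⟫ = _
    rw [inner_cat, inner_zero_left, add_zero]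
  hβ u u' := by
    show ⟪cat 0 (sn u 0), cat 0 (sn u' 0)⟫ = _
    rw [inner_cat, inner_zero_left, inner_sn]
    ring
  hγ c c' := by
    show ⟪cat (0 : Eu (n + 1)) (sn 0 c), cat 0 (sn 0 c')⟫ = _
    rw [inner_cat, inner_zero_left, inner_sn, inner_zero_left]
    ring
  hαβ u u' := by
    show ⟪cat u 0, cat 0 (sn u' 0)⟫ = _
    rw [inner_cat, inner_zero_left, inner_zero_right]
    ring
  hαγ u u' := by
    show ⟪cat u 0, cat 0 (sn 0 u')⟫ = _
    rw [inner_cat, inner_zero_left, inner_zero_right]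
    ring
  hβγ u u' := by
    show ⟪cat (0 : Eu (n + 1)) (sn u 0), cat 0 (sn 0 u')⟫ = _
    rw [inner_cat, inner_zero_left, inner_sn, inner_zero_right]
    ring

theorem ofC_α (D : CDat n V W H) (u : Eu (n + 1)) : (ofC D).α u = cat u 0 := rfl

theorem ofC_β (D : CDat n V W H) (u : Eu n) : (ofC D).β u = cat 0 (sn u 0) := rfl

theorem ofC_γ (D : CDat n V W H) (c : ℝ) : (ofC D).γ c = cat 0 (sn 0 c) := rfl

theorem ofC_sum (D : CDat n V W H) (u : Eu (n + 1)) (r : Eu n) (c : ℝ) :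
    (ofC D).α u + (ofC D).β r + (ofC D).γ c = cat u (sn r c) := by
  rw [ofC_α, ofC_β, ofC_γ, ← cat_add, ← cat_add, zero_add, ← sn_add]
  simp

theorem ofC_JJ (D : CDat n V W H) (y : Eu (n + 1)) (s : Eu n) (u : Eu (n + 1)) (r : Eu n)
    (c : ℝ) : (ofC D).JJ (D.j y) y s u r c = D.JJ y s (u - ⟪y, u⟫ • y) r c := by
  unfold TData.JJ
  rw [ofC_sum]
  rfl

theorem ofC_Phi (D : CDat n V W H) (y : Eu (n + 1)) (s : Eu n) :
    (ofC D).Phi (D.j y) y s = D.phi y s := by
  have h1 : √n • (ofC D).α y + (ofC D).β (Pool.Agent.helper7.MC.sinv s)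
      = cat (Real.sqrt n • y) (sn (Pool.Agent.helper8.MC.sinv s) 0) := by
    rw [ofC_α, ofC_β, ← cat_smul, ← cat_add]
    simp
    rfl
  unfold TData.Phi
  rw [h1]
  rfl

end Pool.Agent.helper7.MC
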