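import Mathlib

set_option autoImplicit false

/-!
# MC (MP_56b5c1), section 3: the normal acceleration of `φ + ρ v`

Abstract form of the curvature estimate of the immersion in codimension four.
-/

namespace Pool.Agent.helper7.MC

open Filter Topology

open scoped RealInnerProductSpace

section Core

variable {H W : Type*} [NormedAddCommGroup H] [InnerProductSpace ℝ H]
  [NormedAddCommGroup W] [InnerProductSpace ℝ W] [CompleteSpace W]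

/-- vectors tested against the range of an isometry -/
theorem core_adj [CompleteSpace H] (J0 : W →L[ℝ] H) (hiso : ∀ w, ‖J0 w‖ = ‖w‖) (q : H) {B : ℝ} (hB : 0 ≤ B)
    (h : ∀ w, |⟪q, J0 w⟫| ≤ B * ‖w‖) :
    ∃ w0 : W, (∀ w, ⟪q - J0 w0, J0 w⟫ = 0) ∧ (∀ w, ⟪J0 w0, J0 w⟫ = ⟪w0, w⟫) ∧ ‖w0‖ ≤ B := by
  have hin : ∀ w w', ⟪J0 w, J0 w'⟫ = ⟪w, w'⟫ := by
    intro w w'
    let I : W →ₗᵢ[ℝ] H := { toLinearMap := (J0 : W →ₗ[ℝ] H), norm_map' := hiso }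
    exact I.inner_map_map w w'
  have h1 : ∀ w, ⟪ContinuousLinearMap.adjoint J0 q, w⟫ = ⟪q, J0 w⟫ := fun w =>
    ContinuousLinearMap.adjoint_inner_left J0 w q
  refine ⟨ContinuousLinearMap.adjoint J0 q, ?_, fun w => hin _ _, ?_⟩
  · intro w
    rw [inner_sub_left, hin, h1, sub_self]
  · have h2 := h (ContinuousLinearMap.adjoint J0 q)
    rw [← h1, real_inner_self_eq_norm_sq, abs_of_nonneg (by positivity)] at h2
    rcases (norm_nonneg (ContinuousLinearMap.adjoint J0 q)).eq_or_lt with h3 | h3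
    · rw [← h3]
      exact hB
    · nlinarith

/-- decomposition of a normal vector -/
theorem core_normal [CompleteSpace H] (J0 : W →L[ℝ] H) (hiso : ∀ w, ‖J0 w‖ = ‖w‖) (v ν : H)
    (hvn : ‖v‖ = 1) (hvJ : ∀ w, ⟪v, J0 w⟫ = 0)
    (hν : ∀ u : H, ⟪u, v⟫ = 0 → (∀ w, ⟪u, J0 w⟫ = 0) → ⟪ν, u⟫ = 0) :
    ∃ wn : W, ‖wn‖ ≤ ‖ν‖ ∧ ν = J0 wn + ⟪ν, v⟫ • v := by
  obtain ⟨wn, n1, n2, n3⟩ := core_adj J0 hiso ν (norm_nonneg ν) (fun w => by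
    have := abs_real_inner_le_norm ν (J0 w)
    rwa [hiso] at this)
  refine ⟨wn, n3, ?_⟩
  obtain ⟨u, hu⟩ : ∃ u : H, u = ν - J0 wn - ⟪ν, v⟫ • v := ⟨_, rfl⟩
  have u1 : ⟪u, v⟫ = 0 := by
    rw [hu, inner_sub_left, inner_sub_left, real_inner_smul_left, real_inner_self_eq_norm_sq, hvn,
      real_inner_comm v (J0 wn), hvJ]
    ring
  have u2 : ∀ w, ⟪u, J0 w⟫ = 0 := by
    intro w
    rw [hu, inner_sub_left, n1, real_inner_smul_left, hvJ]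
    ring
  have u3 := hν u u1 u2
  have u4 : ⟪u, u⟫ = 0 := by
    have h1 : ⟪u, u⟫ = ⟪ν - J0 wn - ⟪ν, v⟫ • v, u⟫ := by rw [← hu]
    rw [h1, inner_sub_left, inner_sub_left, u3, real_inner_smul_left, real_inner_comm u (J0 wn),
      u2, real_inner_comm u v, u1]
    ring
  have u5 : u = 0 := inner_self_eq_zero.1 u4
  rw [hu] at u5
  have u6 : ν - (J0 wn + ⟪ν, v⟫ • v) = 0 := by
    rw [← u5]
    abel
  exact sub_eq_zero.1 u6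

/-- final arithmetic -/
theorem core_arith {C0 C1 C2 C3 ρ X P Q : ℝ} (hX : 0 ≤ X) (hC0 : 0 ≤ C0)
    (hC2 : 0 ≤ C2) (hC1 : 0 ≤ C1) (hC3 : 0 ≤ C3) (hρ : 0 < ρ) (hP0 : 0 ≤ P) (hQ0 : 0 ≤ Q)
    (c1 : X ≤ 2 * P) (c2 : ρ * Q ≤ (1 + 2 * C0) * P) :
    2 * C1 * X ^ 2 + 2 * C2 * X * (ρ * Q) + ρ * C3 * X ^ 2 + ρ * Q ^ 2 ≤
      (8 * C1 + 4 * C2 * (1 + 2 * C0) + 4 * ρ * C3 + (1 + 2 * C0) ^ 2 / ρ) * P ^ 2 := by
  obtain ⟨A, hA⟩ : ∃ A : ℝ, A = 1 + 2 * C0 := ⟨_, rfl⟩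
  have hA0 : 0 ≤ A := by rw [hA]; positivity
  rw [← hA] at c2 ⊢
  have e1 : X ^ 2 ≤ 4 * P ^ 2 := by nlinarith
  have e2 : X * (ρ * Q) ≤ (2 * P) * (A * P) :=
    mul_le_mul c1 c2 (by positivity) (by positivity)
  have e3 : ρ * Q ^ 2 ≤ A ^ 2 * P ^ 2 / ρ := by
    rw [le_div_iff₀ hρ]
    have : (ρ * Q) * (ρ * Q) ≤ (A * P) * (A * P) := mul_self_le_mul_self (by positivity) c2
    calc ρ * Q ^ 2 * ρ = (ρ * Q) * (ρ * Q) := by ring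
      _ ≤ (A * P) * (A * P) := this
      _ = A ^ 2 * P ^ 2 := by ring
  have e4 : 2 * C1 * X ^ 2 ≤ 2 * C1 * (4 * P ^ 2) := mul_le_mul_of_nonneg_left e1 (by positivity)
  have e5 : ρ * C3 * X ^ 2 ≤ ρ * C3 * (4 * P ^ 2) := mul_le_mul_of_nonneg_left e1 (by positivity)
  have e6 : 2 * C2 * (X * (ρ * Q)) ≤ 2 * C2 * ((2 * P) * (A * P)) :=
    mul_le_mul_of_nonneg_left e2 (by positivity)
  have e7 : (8 * C1 + 4 * C2 * A + 4 * ρ * C3 + A ^ 2 / ρ) * P ^ 2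
      = 2 * C1 * (4 * P ^ 2) + 2 * C2 * ((2 * P) * (A * P)) + ρ * C3 * (4 * P ^ 2)
        + A ^ 2 * P ^ 2 / ρ := by ring
  rw [e7]
  linarith

/-- First order part: the velocity of `φ + ρ v` controls `X` and the velocity of `v`. -/
theorem core_first [CompleteSpace H] {C0 C2 ρ X : ℝ} (hX : 0 ≤ X) (hC0 : 0 ≤ C0)
    (hC2 : 0 ≤ C2) (hρ : 0 < ρ) (hρC : ρ * C2 ≤ 1 / 2)
    (J0 : W →L[ℝ] H) (J J' : ℝ → W → H) (hJ0 : ∀ w, J 0 w = J0 w)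
    (hJ : ∀ t w, HasDerivAt (fun t => J t w) (J' t w) t)
    (hiso' : ∀ w, ‖J0 w‖ = ‖w‖) (hJ1b : ∀ w, ‖J' 0 w‖ ≤ C2 * X * ‖w‖)
    (v v' : ℝ → H) (hv : ∀ t, HasDerivAt v (v' t) t)
    (hvn : ∀ t, ‖v t‖ = 1) (hvJ : ∀ t w, ⟪v t, J t w⟫ = 0)
    (φ1 : H) (w1 : W) (hw1 : X ≤ ‖w1‖) (hφ1' : ∀ w, ⟪φ1 - J0 w1, J0 w⟫ = 0)
    (hφ1b : ‖φ1‖ ≤ C0 * X) :
    X ≤ 2 * ‖φ1 + ρ • v' 0‖ ∧ ρ * ‖v' 0‖ ≤ (1 + 2 * C0) * ‖φ1 + ρ • v' 0‖ := by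
  -- first derivative of `⟪v, J w⟫ = 0`
  have a1 : ∀ t w, ⟪v' t, J t w⟫ + ⟪v t, J' t w⟫ = 0 := by
    intro t w
    have h2 := (hv t).inner ℝ (hJ t w)
    have h3 : HasDerivAt (fun t => ⟪v t, J t w⟫) 0 t := by
      have : (fun t => ⟪v t, J t w⟫) = fun _ => (0 : ℝ) := funext fun t => hvJ t w
      rw [this]
      exact hasDerivAt_const _ _
    have h4 := h2.unique h3
    linarith
  have hvJ0 : ∀ w, ⟪v 0, J0 w⟫ = 0 := fun w => by rw [← hJ0, hvJ]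
  have b1 : ∀ w, |⟪v' 0, J0 w⟫| ≤ C2 * X * ‖w‖ := by
    intro w
    have h1 : ⟪v' 0, J0 w⟫ = - ⟪v 0, J' 0 w⟫ := by rw [← hJ0]; linarith [a1 0 w]
    rw [h1, abs_neg]
    refine (abs_real_inner_le_norm _ _).trans ?_
    rw [hvn, one_mul]
    exact hJ1b w
  obtain ⟨P, hP⟩ : ∃ P : ℝ, P = ‖φ1 + ρ • v' 0‖ := ⟨_, rfl⟩
  obtain ⟨Q, hQ⟩ : ∃ Q : ℝ, Q = ‖v' 0‖ := ⟨_, rfl⟩
  have hP0 : 0 ≤ P := by rw [hP]; exact norm_nonneg _
  have hQ0 : 0 ≤ Q := by rw [hQ]; exact norm_nonneg _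
  -- the component in the range of `J0`
  have c1 : X ≤ 2 * P := by
    obtain ⟨wa, k1, k2, k3⟩ := core_adj J0 hiso' (v' 0) (by positivity) b1
    have k4 : ∀ w, ⟪(φ1 + ρ • v' 0) - J0 (w1 + ρ • wa), J0 w⟫ = 0 := by
      intro w
      have : (φ1 + ρ • v' 0) - J0 (w1 + ρ • wa)
          = (φ1 - J0 w1) + ρ • (v' 0 - J0 wa) := by
        rw [map_add, map_smul, smul_sub]
        abel
      rw [this, inner_add_left, inner_smul_left, hφ1', k1]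
      simp
    have k5 : ‖w1 + ρ • wa‖ ≤ P := by
      have k6 : ⟪φ1 + ρ • v' 0, J0 (w1 + ρ • wa)⟫ = ‖w1 + ρ • wa‖ ^ 2 := by
        have k7 := k4 (w1 + ρ • wa)
        rw [inner_sub_left, real_inner_self_eq_norm_sq, hiso'] at k7
        linarith
      have k8 := real_inner_le_norm (φ1 + ρ • v' 0) (J0 (w1 + ρ • wa))
      rw [k6, hiso', ← hP] at k8
      rcases (norm_nonneg (w1 + ρ • wa)).eq_or_lt with k9 | k9
      · rw [← k9]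
        exact hP0
      · nlinarith
    have k6 : ‖w1‖ ≤ ‖w1 + ρ • wa‖ + ρ * ‖wa‖ := by
      have h1 : w1 = (w1 + ρ • wa) - ρ • wa := by abel
      have h2 := norm_sub_le (w1 + ρ • wa) (ρ • wa)
      rw [← h1, norm_smul, Real.norm_eq_abs, abs_of_pos hρ] at h2
      exact h2
    have k7 : ρ * ‖wa‖ ≤ X / 2 := by
      have h1 : ρ * ‖wa‖ ≤ ρ * (C2 * X) := mul_le_mul_of_nonneg_left k3 hρ.le
      have h2 : (ρ * C2) * X ≤ 1 / 2 * X := mul_le_mul_of_nonneg_right hρC hX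
      linarith
    linarith
  have c2 : ρ * Q ≤ (1 + 2 * C0) * P := by
    have h1 : ρ • v' 0 = (φ1 + ρ • v' 0) - φ1 := by abel
    have h2 := norm_sub_le (φ1 + ρ • v' 0) φ1
    rw [← h1, norm_smul, Real.norm_eq_abs, abs_of_pos hρ, ← hP, ← hQ] at h2
    have h3 : C0 * X ≤ C0 * (2 * P) := mul_le_mul_of_nonneg_left c1 hC0
    linarith
  rw [← hP, ← hQ]
  exact ⟨c1, c2⟩

/-- The estimate. `J t` is a family of linear maps, isometric at `0`; `v t` is a unit vector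
orthogonal to the range of `J t`; `φ1, φ2` are velocity and acceleration of a curve, the component
of `φ1` in the range of `J 0` is `J 0 w1` with `‖w1‖ ≥ X`; `ν` is orthogonal to all vectors
orthogonal to `v 0` and the range of `J 0`. -/
theorem core_estimate [CompleteSpace H] {C0 C1 C2 C3 ρ X : ℝ} (hX : 0 ≤ X) (hC0 : 0 ≤ C0)
    (hC2 : 0 ≤ C2) (hC1 : 0 ≤ C1) (hC3 : 0 ≤ C3) (hρ : 0 < ρ) (hρC : ρ * C2 ≤ 1 / 2)
    (J0 : W →L[ℝ] H) (J J' : ℝ → W → H) (J2 : W → H) (hJ0 : ∀ w, J 0 w = J0 w)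
    (hJ : ∀ t w, HasDerivAt (fun t => J t w) (J' t w) t)
    (hJ2 : ∀ w, HasDerivAt (fun t => J' t w) (J2 w) 0)
    (hiso' : ∀ w, ‖J0 w‖ = ‖w‖) (hJ1b : ∀ w, ‖J' 0 w‖ ≤ C2 * X * ‖w‖)
    (hJ2b : ∀ w, ‖J2 w‖ ≤ C3 * X ^ 2 * ‖w‖)
    (v v' : ℝ → H) (v2 : H) (hv : ∀ t, HasDerivAt v (v' t) t) (hv2 : HasDerivAt v' v2 0)
    (hvn : ∀ t, ‖v t‖ = 1) (hvJ : ∀ t w, ⟪v t, J t w⟫ = 0)
    (φ1 φ2 : H) (w1 : W) (hw1 : X ≤ ‖w1‖) (hφ1' : ∀ w, ⟪φ1 - J0 w1, J0 w⟫ = 0)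
    (hφ1b : ‖φ1‖ ≤ C0 * X) (hφ2b : ‖φ2‖ ≤ C1 * X ^ 2)
    (ν : H) (hν : ∀ u : H, ⟪u, v 0⟫ = 0 → (∀ w, ⟪u, J0 w⟫ = 0) → ⟪ν, u⟫ = 0) :
    |⟪ν, φ2 + ρ • v2⟫| ≤ (8 * C1 + 4 * C2 * (1 + 2 * C0) + 4 * ρ * C3 + (1 + 2 * C0) ^ 2 / ρ) *
      ‖φ1 + ρ • v' 0‖ ^ 2 * ‖ν‖ := by
  -- first derivative of `⟪v, J w⟫ = 0`
  have a1 : ∀ t w, ⟪v' t, J t w⟫ + ⟪v t, J' t w⟫ = 0 := by
    intro t w
    have h2 := (hv t).inner ℝ (hJ t w)
    have h3 : HasDerivAt (fun t => ⟪v t, J t w⟫) 0 t := by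
      have : (fun t => ⟪v t, J t w⟫) = fun _ => (0 : ℝ) := funext fun t => hvJ t w
      rw [this]
      exact hasDerivAt_const _ _
    have h4 := h2.unique h3
    linarith
  -- second derivative
  have a2 : ∀ w, ⟪v2, J 0 w⟫ + 2 * ⟪v' 0, J' 0 w⟫ + ⟪v 0, J2 w⟫ = 0 := by
    intro w
    have h2 := (hv2.inner ℝ (hJ 0 w)).add ((hv 0).inner ℝ (hJ2 w))
    have h3 : HasDerivAt (fun t => ⟪v' t, J t w⟫ + ⟪v t, J' t w⟫) 0 0 := by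
      have : (fun t => ⟪v' t, J t w⟫ + ⟪v t, J' t w⟫) = fun _ => (0 : ℝ) :=
        funext fun t => a1 t w
      rw [this]
      exact hasDerivAt_const _ _
    have h4 := h2.unique h3
    linarith
  have a3 : ⟪v 0, v2⟫ = - ‖v' 0‖ ^ 2 := by
    have h1 : ∀ t, ⟪v t, v' t⟫ = 0 := by
      intro t
      have h2 := (hv t).inner ℝ (hv t)
      have h3 : HasDerivAt (fun t => ⟪v t, v t⟫) 0 t := by
        have : (fun t => ⟪v t, v t⟫) = fun _ => (1 : ℝ) := funext fun t => by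
          rw [real_inner_self_eq_norm_sq, hvn]
          norm_num
        rw [this]
        exact hasDerivAt_const _ _
      have h4 := h2.unique h3
      rw [real_inner_comm (v t) (v' t)] at h4
      linarith
    have h2 := (hv 0).inner ℝ hv2
    have h3 : HasDerivAt (fun t => ⟪v t, v' t⟫) 0 0 := by
      have : (fun t => ⟪v t, v' t⟫) = fun _ => (0 : ℝ) := funext h1
      rw [this]
      exact hasDerivAt_const _ _
    have h4 := h2.unique h3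
    rw [real_inner_self_eq_norm_sq] at h4
    linarith
  have hvJ0 : ∀ w, ⟪v 0, J0 w⟫ = 0 := fun w => by rw [← hJ0, hvJ]
  have b1 : ∀ w, |⟪v' 0, J0 w⟫| ≤ C2 * X * ‖w‖ := by
    intro w
    have h1 : ⟪v' 0, J0 w⟫ = - ⟪v 0, J' 0 w⟫ := by rw [← hJ0]; linarith [a1 0 w]
    rw [h1, abs_neg]
    refine (abs_real_inner_le_norm _ _).trans ?_
    rw [hvn, one_mul]
    exact hJ1b w
  have b2 : ∀ w, |⟪v2, J0 w⟫| ≤ (2 * ‖v' 0‖ * (C2 * X) + C3 * X ^ 2) * ‖w‖ := by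
    intro w
    have h1 : ⟪v2, J0 w⟫ = - (2 * ⟪v' 0, J' 0 w⟫) - ⟪v 0, J2 w⟫ := by
      rw [← hJ0]
      linarith [a2 w]
    have h2 : |⟪v' 0, J' 0 w⟫| ≤ ‖v' 0‖ * (C2 * X * ‖w‖) :=
      (abs_real_inner_le_norm _ _).trans (mul_le_mul_of_nonneg_left (hJ1b w) (norm_nonneg _))
    have h3 : |⟪v 0, J2 w⟫| ≤ C3 * X ^ 2 * ‖w‖ := by
      refine (abs_real_inner_le_norm _ _).trans ?_
      rw [hvn, one_mul]
      exact hJ2b w
    rw [h1]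
    have h4 := abs_le.1 h2
    have h5 := abs_le.1 h3
    rw [abs_le]
    constructor <;> nlinarith [h4.1, h4.2, h5.1, h5.2]
  obtain ⟨P, hP⟩ : ∃ P : ℝ, P = ‖φ1 + ρ • v' 0‖ := ⟨_, rfl⟩
  obtain ⟨Q, hQ⟩ : ∃ Q : ℝ, Q = ‖v' 0‖ := ⟨_, rfl⟩
  have hP0 : 0 ≤ P := by rw [hP]; exact norm_nonneg _
  have hQ0 : 0 ≤ Q := by rw [hQ]; exact norm_nonneg _
  -- the component in the range of `J0`
  have c1 : X ≤ 2 * P := by
    obtain ⟨wa, k1, k2, k3⟩ := core_adj J0 hiso' (v' 0) (by positivity) b1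
    have k4 : ∀ w, ⟪(φ1 + ρ • v' 0) - J0 (w1 + ρ • wa), J0 w⟫ = 0 := by
      intro w
      have : (φ1 + ρ • v' 0) - J0 (w1 + ρ • wa)
          = (φ1 - J0 w1) + ρ • (v' 0 - J0 wa) := by
        rw [map_add, map_smul, smul_sub]
        abel
      rw [this, inner_add_left, inner_smul_left, hφ1', k1]
      simp
    have k5 : ‖w1 + ρ • wa‖ ≤ P := by
      have k6 : ⟪φ1 + ρ • v' 0, J0 (w1 + ρ • wa)⟫ = ‖w1 + ρ • wa‖ ^ 2 := by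
        have k7 := k4 (w1 + ρ • wa)
        rw [inner_sub_left, real_inner_self_eq_norm_sq, hiso'] at k7
        linarith
      have k8 := real_inner_le_norm (φ1 + ρ • v' 0) (J0 (w1 + ρ • wa))
      rw [k6, hiso', ← hP] at k8
      rcases (norm_nonneg (w1 + ρ • wa)).eq_or_lt with k9 | k9
      · rw [← k9]
        exact hP0
      · nlinarith
    have k6 : ‖w1‖ ≤ ‖w1 + ρ • wa‖ + ρ * ‖wa‖ := by
      have h1 : w1 = (w1 + ρ • wa) - ρ • wa := by abel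
      have h2 := norm_sub_le (w1 + ρ • wa) (ρ • wa)
      rw [← h1, norm_smul, Real.norm_eq_abs, abs_of_pos hρ] at h2
      exact h2
    have k7 : ρ * ‖wa‖ ≤ X / 2 := by
      have h1 : ρ * ‖wa‖ ≤ ρ * (C2 * X) := mul_le_mul_of_nonneg_left k3 hρ.le
      have h2 : (ρ * C2) * X ≤ 1 / 2 * X := mul_le_mul_of_nonneg_right hρC hX
      linarith
    linarith
  have c2 : ρ * Q ≤ (1 + 2 * C0) * P := by
    have h1 : ρ • v' 0 = (φ1 + ρ • v' 0) - φ1 := by abel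
    have h2 := norm_sub_le (φ1 + ρ • v' 0) φ1
    rw [← h1, norm_smul, Real.norm_eq_abs, abs_of_pos hρ, ← hP, ← hQ] at h2
    have h3 : C0 * X ≤ C0 * (2 * P) := mul_le_mul_of_nonneg_left c1 hC0
    linarith
  -- the normal vector
  obtain ⟨wn, n3, hν2⟩ := core_normal J0 hiso' (v 0) ν (hvn 0) hvJ0 hν
  have d1 : |⟪ν, v 0⟫| ≤ ‖ν‖ := by
    have := abs_real_inner_le_norm ν (v 0)
    rwa [hvn, mul_one] at this
  have hexp : ⟪ν, φ2 + ρ • v2⟫ = ⟪J0 wn, φ2⟫ + ρ * ⟪v2, J0 wn⟫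
      + ⟪ν, v 0⟫ * (⟪v 0, φ2⟫ + ρ * (- Q ^ 2)) := by
    have h1 : ⟪ν, φ2 + ρ • v2⟫ = ⟪J0 wn + ⟪ν, v 0⟫ • v 0, φ2 + ρ • v2⟫ := by rw [← hν2]
    rw [h1, inner_add_left, inner_add_right, real_inner_smul_left, inner_add_right,
      real_inner_smul_right, real_inner_smul_right, a3, real_inner_comm v2, hQ]
  have t1 : |⟪J0 wn, φ2⟫| ≤ ‖ν‖ * (C1 * X ^ 2) := by
    refine (abs_real_inner_le_norm _ _).trans ?_
    rw [hiso']
    exact mul_le_mul n3 hφ2b (norm_nonneg _) (norm_nonneg _)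
  have t2 : |⟪v2, J0 wn⟫| ≤ (2 * Q * (C2 * X) + C3 * X ^ 2) * ‖ν‖ := by
    refine (b2 wn).trans ?_
    rw [← hQ]
    exact mul_le_mul_of_nonneg_left n3 (by positivity)
  have t3 : |⟪v 0, φ2⟫| ≤ C1 * X ^ 2 := by
    refine (abs_real_inner_le_norm _ _).trans ?_
    rw [hvn, one_mul]
    exact hφ2b
  have t4 : |⟪ν, v 0⟫ * (⟪v 0, φ2⟫ + ρ * (- Q ^ 2))| ≤ ‖ν‖ * (C1 * X ^ 2 + ρ * Q ^ 2) := by
    rw [abs_mul]
    refine mul_le_mul d1 ?_ (abs_nonneg _) (norm_nonneg _)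
    refine (abs_add_le _ _).trans (add_le_add t3 ?_)
    rw [mul_neg, abs_neg, abs_of_nonneg (by positivity)]
  have tot : |⟪ν, φ2 + ρ • v2⟫| ≤
      (2 * C1 * X ^ 2 + 2 * C2 * X * (ρ * Q) + ρ * C3 * X ^ 2 + ρ * Q ^ 2) * ‖ν‖ := by
    rw [hexp]
    refine (abs_add_le _ _).trans ?_
    have h1 := abs_add_le (⟪J0 wn, φ2⟫) (ρ * ⟪v2, J0 wn⟫)
    rw [abs_mul, abs_of_pos hρ] at h1
    have h2 : ρ * |⟪v2, J0 wn⟫| ≤ ρ * ((2 * Q * (C2 * X) + C3 * X ^ 2) * ‖ν‖) :=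
      mul_le_mul_of_nonneg_left t2 hρ.le
    have h3 := add_le_add (h1.trans (add_le_add t1 h2)) t4
    refine h3.trans (le_of_eq ?_)
    ring
  refine tot.trans ?_
  rw [← hP]
  exact mul_le_mul_of_nonneg_right (core_arith hX hC0 hC2 hC1 hC3 hρ hP0 hQ0 c1 c2)
    (norm_nonneg _)

end Core

end Pool.Agent.helper7.MC
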