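import Pool.Agent.helper7.MC.Core

set_option autoImplicit false

/-!
# MC (MP_56b5c1), section 3: the explicit curvature estimate

Abstract data: an inner product space `H` which contains `V ⊗ A` (bilinear map `T`) and `ℝⁿ` (map
`I`), where `A` contains `ℝⁿ⁺¹` (map `α`), `ℝⁿ` (map `β`) and `ℝ` (map `γ`) orthogonally.
-/

noncomputable section

namespace Pool.Agent.helper7.MC

open Filter Topology

open scoped RealInnerProductSpace

/-- Componentwise product. -/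
def had {n : ℕ} (a b : EuclideanSpace ℝ (Fin n)) : EuclideanSpace ℝ (Fin n) :=
  WithLp.toLp 2 fun i => a i * b i

/-- Componentwise sine. -/
def sinv {n : ℕ} (s : EuclideanSpace ℝ (Fin n)) : EuclideanSpace ℝ (Fin n) :=
  WithLp.toLp 2 fun i => Real.sin (s i)

/-- Componentwise cosine. -/
def cosv {n : ℕ} (s : EuclideanSpace ℝ (Fin n)) : EuclideanSpace ℝ (Fin n) :=
  WithLp.toLp 2 fun i => Real.cos (s i)

section Had

variable {n : ℕ}

theorem had_apply (a b : EuclideanSpace ℝ (Fin n)) (i : Fin n) : had a b i = a i * b i := rfl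

theorem sinv_apply (s : EuclideanSpace ℝ (Fin n)) (i : Fin n) : sinv s i = Real.sin (s i) := rfl

theorem cosv_apply (s : EuclideanSpace ℝ (Fin n)) (i : Fin n) : cosv s i = Real.cos (s i) := rfl

theorem norm_sq_eu (a : EuclideanSpace ℝ (Fin n)) : ‖a‖ ^ 2 = ∑ i, a i ^ 2 := by
  rw [EuclideanSpace.norm_sq_eq]
  exact Finset.sum_congr rfl fun i _ => by rw [Real.norm_eq_abs, sq_abs]

theorem inner_eu (a b : EuclideanSpace ℝ (Fin n)) : ⟪a, b⟫ = ∑ i, a i * b i := by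
  rw [PiLp.inner_apply]
  exact Finset.sum_congr rfl fun i _ => by simp [mul_comm]

theorem norm_had_le_of (a b : EuclideanSpace ℝ (Fin n)) (hb : ∀ i, |b i| ≤ 1) :
    ‖had a b‖ ≤ ‖a‖ := by
  refine (sq_le_sq₀ (norm_nonneg _) (norm_nonneg _)).1 ?_
  rw [norm_sq_eu, norm_sq_eu]
  refine Finset.sum_le_sum fun i _ => ?_
  rw [had_apply, mul_pow]
  have h1 : b i ^ 2 ≤ 1 := by
    rw [← sq_abs]
    exact pow_le_one₀ (abs_nonneg _) (hb i)
  nlinarith [sq_nonneg (a i)]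

theorem norm_had_le (a b : EuclideanSpace ℝ (Fin n)) : ‖had a b‖ ≤ ‖a‖ * ‖b‖ := by
  refine (sq_le_sq₀ (norm_nonneg _) (by positivity)).1 ?_
  rw [mul_pow, norm_sq_eu, norm_sq_eu b, Finset.mul_sum]
  refine Finset.sum_le_sum fun i _ => ?_
  rw [had_apply, mul_pow]
  refine mul_le_mul_of_nonneg_right ?_ (sq_nonneg _)
  rw [norm_sq_eu]
  exact Finset.single_le_sum (f := fun i => a i ^ 2) (fun j _ => sq_nonneg _) (Finset.mem_univ i)

theorem inner_had_cos_sin (a b s : EuclideanSpace ℝ (Fin n)) :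
    ⟪had a (cosv s), had b (cosv s)⟫ + ⟪had a (sinv s), had b (sinv s)⟫ = ⟪a, b⟫ := by
  rw [inner_eu, inner_eu, inner_eu, ← Finset.sum_add_distrib]
  refine Finset.sum_congr rfl fun i _ => ?_
  rw [had_apply, had_apply, had_apply, had_apply, cosv_apply, sinv_apply]
  linear_combination (a i * b i) * Real.sin_sq_add_cos_sq (s i)

theorem had_cos_sin (a s : EuclideanSpace ℝ (Fin n)) :
    ‖had a (cosv s)‖ ^ 2 + ‖had a (sinv s)‖ ^ 2 = ‖a‖ ^ 2 := by
  rw [← real_inner_self_eq_norm_sq, ← real_inner_self_eq_norm_sq, ← real_inner_self_eq_norm_sq,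
    inner_had_cos_sin]

theorem norm_sinv_le (s : EuclideanSpace ℝ (Fin n)) : ‖sinv s‖ ^ 2 ≤ n := by
  rw [norm_sq_eu]
  calc ∑ i, sinv s i ^ 2 ≤ ∑ _i : Fin n, (1 : ℝ) := Finset.sum_le_sum fun i _ => by
        rw [sinv_apply]
        exact Real.sin_sq_le_one _
    _ = n := by simp

theorem hasDerivAt_eu {f : ℝ → EuclideanSpace ℝ (Fin n)} {f' : EuclideanSpace ℝ (Fin n)} {t : ℝ}
    (h : ∀ i, HasDerivAt (fun t => f t i) (f' i) t) : HasDerivAt f f' t := by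
  have h1 : HasDerivAt (fun t => (fun i => f t i : Fin n → ℝ)) (fun i => f' i) t :=
    hasDerivAt_pi.2 h
  have h2 := ((EuclideanSpace.equiv (Fin n) ℝ).symm :
    (Fin n → ℝ) →L[ℝ] EuclideanSpace ℝ (Fin n)).hasFDerivAt.comp_hasDerivAt t h1
  exact h2

theorem hasDerivAt_sinv (s σ : EuclideanSpace ℝ (Fin n)) (t : ℝ) :
    HasDerivAt (fun t : ℝ => sinv (s + t • σ)) (had σ (cosv (s + t • σ))) t := by
  refine hasDerivAt_eu fun i => ?_
  have h1 : HasDerivAt (fun t : ℝ => s i + t * σ i) (σ i) t := by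
    have := ((hasDerivAt_id t).mul_const (σ i)).const_add (s i)
    simpa using this
  have h2 := h1.sin
  have h3 : (had σ (cosv (s + t • σ))) i = Real.cos (s i + t * σ i) * σ i := by
    rw [had_apply, cosv_apply, mul_comm]
    rfl
  rw [h3]
  exact h2

theorem hasDerivAt_cosv (s σ : EuclideanSpace ℝ (Fin n)) (t : ℝ) :
    HasDerivAt (fun t : ℝ => cosv (s + t • σ)) (-had σ (sinv (s + t • σ))) t := by
  refine hasDerivAt_eu fun i => ?_
  have h1 : HasDerivAt (fun t : ℝ => s i + t * σ i) (σ i) t := by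
    have := ((hasDerivAt_id t).mul_const (σ i)).const_add (s i)
    simpa using this
  have h2 := h1.cos
  have h3 : (-had σ (sinv (s + t • σ))) i = -Real.sin (s i + t * σ i) * σ i := by
    show -(σ i * Real.sin (s i + t * σ i)) = _
    ring
  rw [h3]
  exact h2

theorem had_hasDerivAt (a : EuclideanSpace ℝ (Fin n)) {b : ℝ → EuclideanSpace ℝ (Fin n)}
    {b' : EuclideanSpace ℝ (Fin n)} {t : ℝ} (hb : HasDerivAt b b' t) :
    HasDerivAt (fun t => had a (b t)) (had a b') t := by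
  refine hasDerivAt_eu fun i => ?_
  have h1 : HasDerivAt (fun t => b t i) (b' i) t := by
    have h2 := (EuclideanSpace.proj i : EuclideanSpace ℝ (Fin n) →L[ℝ] ℝ).hasFDerivAt.comp_hasDerivAt
      t hb
    exact h2
  exact h1.const_mul (a i)

end Had

/-- The abstract data: `T` bilinear and multiplicative for inner products, `I` isometric and
orthogonal to `T`, `α, β, γ` isometric and pairwise orthogonal. -/
structure TData (n : ℕ) (V A H : Type*) [NormedAddCommGroup V] [InnerProductSpace ℝ V]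
    [NormedAddCommGroup A] [InnerProductSpace ℝ A] [NormedAddCommGroup H]
    [InnerProductSpace ℝ H] where
  /-- tensor product map -/
  T : V →L[ℝ] A →L[ℝ] H
  /-- second summand -/
  I : EuclideanSpace ℝ (Fin n) →L[ℝ] H
  /-- first block of `A` -/
  α : EuclideanSpace ℝ (Fin (n + 1)) →L[ℝ] A
  /-- second block of `A` -/
  β : EuclideanSpace ℝ (Fin n) →L[ℝ] A
  /-- last coordinate of `A` -/
  γ : ℝ →L[ℝ] A
  hT : ∀ p q a c, ⟪T p a, T q c⟫ = ⟪p, q⟫ * ⟪a, c⟫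
  hI : ∀ r r', ⟪I r, I r'⟫ = ⟪r, r'⟫
  hTI : ∀ p a r, ⟪T p a, I r⟫ = 0
  hα : ∀ u u', ⟪α u, α u'⟫ = ⟪u, u'⟫
  hβ : ∀ u u', ⟪β u, β u'⟫ = ⟪u, u'⟫
  hγ : ∀ u u' : ℝ, ⟪γ u, γ u'⟫ = u * u'
  hαβ : ∀ u u', ⟪α u, β u'⟫ = 0
  hαγ : ∀ u u', ⟪α u, γ u'⟫ = 0
  hβγ : ∀ u u', ⟪β u, γ u'⟫ = 0

namespace TData

variable {n : ℕ} {V A H : Type*} [NormedAddCommGroup V] [InnerProductSpace ℝ V]
    [NormedAddCommGroup A] [InnerProductSpace ℝ A] [NormedAddCommGroup H]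
    [InnerProductSpace ℝ H] (D : TData n V A H)

theorem norm_T (p : V) (a : A) : ‖D.T p a‖ = ‖p‖ * ‖a‖ := by
  have h1 := D.hT p p a a
  rw [real_inner_self_eq_norm_sq, real_inner_self_eq_norm_sq, real_inner_self_eq_norm_sq,
    ← mul_pow] at h1
  exact (sq_eq_sq₀ (norm_nonneg _) (by positivity)).1 h1

theorem norm_I (r : EuclideanSpace ℝ (Fin n)) : ‖D.I r‖ = ‖r‖ := by
  have h1 := D.hI r r
  rw [real_inner_self_eq_norm_sq, real_inner_self_eq_norm_sq] at h1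
  exact (sq_eq_sq₀ (norm_nonneg _) (norm_nonneg _)).1 h1

theorem norm_α (r : EuclideanSpace ℝ (Fin (n + 1))) : ‖D.α r‖ = ‖r‖ := by
  have h1 := D.hα r r
  rw [real_inner_self_eq_norm_sq, real_inner_self_eq_norm_sq] at h1
  exact (sq_eq_sq₀ (norm_nonneg _) (norm_nonneg _)).1 h1

theorem norm_β (r : EuclideanSpace ℝ (Fin n)) : ‖D.β r‖ = ‖r‖ := by
  have h1 := D.hβ r r
  rw [real_inner_self_eq_norm_sq, real_inner_self_eq_norm_sq] at h1
  exact (sq_eq_sq₀ (norm_nonneg _) (norm_nonneg _)).1 h1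

/-- the norm of a vector of `A` given by its three blocks -/
theorem norm_abc (u : EuclideanSpace ℝ (Fin (n + 1))) (r : EuclideanSpace ℝ (Fin n)) (c : ℝ) :
    ‖D.α u + D.β r + D.γ c‖ ^ 2 = ‖u‖ ^ 2 + ‖r‖ ^ 2 + c ^ 2 := by
  rw [← real_inner_self_eq_norm_sq, inner_add_left, inner_add_left, inner_add_right,
    inner_add_right, inner_add_right, inner_add_right, inner_add_right, inner_add_right,
    D.hα, D.hβ, D.hγ, D.hαβ, D.hαγ, D.hβγ, real_inner_comm (D.α u), D.hαβ,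
    real_inner_comm (D.α u), D.hαγ, real_inner_comm (D.β r), D.hβγ,
    real_inner_self_eq_norm_sq, real_inner_self_eq_norm_sq]
  ring

/-- The vector `J`. -/
def JJ (p : V) (y : EuclideanSpace ℝ (Fin (n + 1))) (s : EuclideanSpace ℝ (Fin n))
    (u : EuclideanSpace ℝ (Fin (n + 1))) (r : EuclideanSpace ℝ (Fin n)) (c : ℝ) : H :=
  D.T p (D.α (u - ⟪y, u⟫ • y) + D.β (had r (cosv s)) + D.γ c) - D.I (had r (sinv s))

/-- The vector `φ`. -/
def Phi (p : V) (y : EuclideanSpace ℝ (Fin (n + 1))) (s : EuclideanSpace ℝ (Fin n)) : H :=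
  D.T p (√n • D.α y + D.β (sinv s)) + D.I (cosv s)

theorem had_add_left (a a' b : EuclideanSpace ℝ (Fin n)) :
    had (a + a') b = had a b + had a' b := by
  ext i
  show (a i + a' i) * b i = a i * b i + a' i * b i
  ring

theorem had_smul_left (k : ℝ) (a b : EuclideanSpace ℝ (Fin n)) :
    had (k • a) b = k • had a b := by
  ext i
  show (k * a i) * b i = k * (a i * b i)
  ring

theorem had_neg_right (a b : EuclideanSpace ℝ (Fin n)) : had a (-b) = -had a b := by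
  ext i
  show a i * -b i = -(a i * b i)
  ring

theorem JJ_add (p : V) (y : EuclideanSpace ℝ (Fin (n + 1))) (s : EuclideanSpace ℝ (Fin n))
    (u u' : EuclideanSpace ℝ (Fin (n + 1))) (r r' : EuclideanSpace ℝ (Fin n)) (c c' : ℝ) :
    D.JJ p y s (u + u') (r + r') (c + c') = D.JJ p y s u r c + D.JJ p y s u' r' c' := by
  have h1 : u + u' - ⟪y, u + u'⟫ • y = (u - ⟪y, u⟫ • y) + (u' - ⟪y, u'⟫ • y) := by
    rw [inner_add_right, add_smul]
    abel
  unfold JJ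
  rw [h1, had_add_left, had_add_left, map_add D.α, map_add D.β, map_add D.γ, map_add D.I]
  have h2 : D.α (u - ⟪y, u⟫ • y) + D.α (u' - ⟪y, u'⟫ • y)
      + (D.β (had r (cosv s)) + D.β (had r' (cosv s))) + (D.γ c + D.γ c')
      = (D.α (u - ⟪y, u⟫ • y) + D.β (had r (cosv s)) + D.γ c)
        + (D.α (u' - ⟪y, u'⟫ • y) + D.β (had r' (cosv s)) + D.γ c') := by abel
  rw [h2, map_add (D.T p)]
  abel

theorem JJ_smul (p : V) (y : EuclideanSpace ℝ (Fin (n + 1))) (s : EuclideanSpace ℝ (Fin n))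
    (k : ℝ) (u : EuclideanSpace ℝ (Fin (n + 1))) (r : EuclideanSpace ℝ (Fin n)) (c : ℝ) :
    D.JJ p y s (k • u) (k • r) (k * c) = k • D.JJ p y s u r c := by
  have h1 : k • u - ⟪y, k • u⟫ • y = k • (u - ⟪y, u⟫ • y) := by
    rw [real_inner_smul_right, mul_smul, smul_sub]
  have h3 : D.γ (k * c) = k • D.γ c := by
    rw [← smul_eq_mul, map_smul]
  unfold JJ
  rw [h1, had_smul_left, had_smul_left, map_smul D.α, map_smul D.β, h3, map_smul D.I,
    ← smul_add, ← smul_add, map_smul (D.T p), ← smul_sub]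

/-- `J` is isometric (`‖p‖ = 1`, `u ⊥ y`). -/
theorem norm_JJ (p : V) (hp : ‖p‖ = 1) (y : EuclideanSpace ℝ (Fin (n + 1)))
    (s : EuclideanSpace ℝ (Fin n)) (u : EuclideanSpace ℝ (Fin (n + 1))) (hu : ⟪y, u⟫ = 0)
    (r : EuclideanSpace ℝ (Fin n)) (c : ℝ) :
    ‖D.JJ p y s u r c‖ ^ 2 = ‖u‖ ^ 2 + ‖r‖ ^ 2 + c ^ 2 := by
  unfold JJ
  rw [hu, zero_smul, sub_zero, norm_sub_sq_real, D.hTI, D.norm_T, hp, one_mul, D.norm_abc,
    D.norm_I, ← had_cos_sin r s]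
  ring

theorem T_hasDerivAt {p : ℝ → V} {p' : V} {a : ℝ → A} {a' : A} {t : ℝ}
    (hp : HasDerivAt p p' t) (ha : HasDerivAt a a' t) :
    HasDerivAt (fun t => D.T (p t) (a t)) (D.T p' (a t) + D.T (p t) a') t :=
  (D.T.hasFDerivAt.comp_hasDerivAt t hp).clm_apply ha

end TData

section Curve

variable {n : ℕ} {V A H : Type*} [NormedAddCommGroup V] [InnerProductSpace ℝ V]
    [NormedAddCommGroup A] [InnerProductSpace ℝ A] [NormedAddCommGroup H]
    [InnerProductSpace ℝ H] (D : TData n V A H)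
    (j : EuclideanSpace ℝ (Fin (n + 1)) →L[ℝ] V)
    (y y1 : ℝ → EuclideanSpace ℝ (Fin (n + 1))) (s σ : EuclideanSpace ℝ (Fin n))

/-- velocity of `φ` -/
def Phi1 (t : ℝ) : H :=
  D.T (j (y1 t)) (√n • D.α (y t) + D.β (sinv (s + t • σ))) +
    D.T (j (y t)) (√n • D.α (y1 t) + D.β (had σ (cosv (s + t • σ))))
    - D.I (had σ (sinv (s + t • σ)))

/-- acceleration of `φ` -/
def Phi2 (y2 : EuclideanSpace ℝ (Fin (n + 1))) (t : ℝ) : H :=
  D.T (j y2) (√n • D.α (y t) + D.β (sinv (s + t • σ))) +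
    (2 : ℝ) • D.T (j (y1 t)) (√n • D.α (y1 t) + D.β (had σ (cosv (s + t • σ)))) +
    D.T (j (y t)) (√n • D.α y2 - D.β (had σ (had σ (sinv (s + t • σ)))))
    - D.I (had σ (had σ (cosv (s + t • σ))))

theorem Phi_hasDerivAt (t : ℝ) (hy : HasDerivAt y (y1 t) t) :
    HasDerivAt (fun t => D.Phi (j (y t)) (y t) (s + t • σ)) (Phi1 D j y y1 s σ t) t := by
  have h1 : HasDerivAt (fun t => j (y t)) (j (y1 t)) t := j.hasFDerivAt.comp_hasDerivAt t hy
  have h2 : HasDerivAt (fun t => D.α (y t)) (D.α (y1 t)) t :=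
    D.α.hasFDerivAt.comp_hasDerivAt t hy
  have h3 : HasDerivAt (fun t : ℝ => D.β (sinv (s + t • σ))) (D.β (had σ (cosv (s + t • σ)))) t :=
    D.β.hasFDerivAt.comp_hasDerivAt t (hasDerivAt_sinv s σ t)
  have h4 : HasDerivAt (fun t : ℝ => D.I (cosv (s + t • σ))) (D.I (-had σ (sinv (s + t • σ)))) t :=
    D.I.hasFDerivAt.comp_hasDerivAt t (hasDerivAt_cosv s σ t)
  have h5 := (D.T_hasDerivAt h1 ((h2.const_smul √n).add h3)).add h4
  unfold Phi1 TData.Phi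
  rw [map_neg, ← sub_eq_add_neg] at h5
  exact h5

theorem Phi1_hasDerivAt (t : ℝ) (y2 : EuclideanSpace ℝ (Fin (n + 1))) (hy : HasDerivAt y (y1 t) t)
    (hy1 : HasDerivAt y1 y2 t) :
    HasDerivAt (Phi1 D j y y1 s σ) (Phi2 D j y y1 s σ y2 t) t := by
  have h1 : HasDerivAt (fun t => j (y t)) (j (y1 t)) t := j.hasFDerivAt.comp_hasDerivAt t hy
  have h1' : HasDerivAt (fun t => j (y1 t)) (j y2) t := j.hasFDerivAt.comp_hasDerivAt t hy1
  have h2 : HasDerivAt (fun t => D.α (y t)) (D.α (y1 t)) t :=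
    D.α.hasFDerivAt.comp_hasDerivAt t hy
  have h2' : HasDerivAt (fun t => D.α (y1 t)) (D.α y2) t :=
    D.α.hasFDerivAt.comp_hasDerivAt t hy1
  have h3 : HasDerivAt (fun t : ℝ => D.β (sinv (s + t • σ))) (D.β (had σ (cosv (s + t • σ)))) t :=
    D.β.hasFDerivAt.comp_hasDerivAt t (hasDerivAt_sinv s σ t)
  have h3' : HasDerivAt (fun t : ℝ => D.β (had σ (cosv (s + t • σ))))
      (D.β (had σ (-had σ (sinv (s + t • σ))))) t :=
    D.β.hasFDerivAt.comp_hasDerivAt t (had_hasDerivAt σ (hasDerivAt_cosv s σ t))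
  have h4 : HasDerivAt (fun t : ℝ => D.I (had σ (sinv (s + t • σ))))
      (D.I (had σ (had σ (cosv (s + t • σ))))) t :=
    D.I.hasFDerivAt.comp_hasDerivAt t (had_hasDerivAt σ (hasDerivAt_sinv s σ t))
  have h5 := ((D.T_hasDerivAt h1' ((h2.const_smul √n).add h3)).add
    (D.T_hasDerivAt h1 ((h2'.const_smul √n).add h3'))).sub h4
  have h6 : D.T (j y2) (√n • D.α (y t) + D.β (sinv (s + t • σ))) +
      D.T (j (y1 t)) (√n • D.α (y1 t) + D.β (had σ (cosv (s + t • σ)))) +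
      (D.T (j (y1 t)) (√n • D.α (y1 t) + D.β (had σ (cosv (s + t • σ)))) +
      D.T (j (y t)) (√n • D.α y2 + D.β (had σ (-had σ (sinv (s + t • σ))))))
      - D.I (had σ (had σ (cosv (s + t • σ)))) = Phi2 D j y y1 s σ y2 t := by
    unfold Phi2
    rw [TData.had_neg_right, map_neg, ← sub_eq_add_neg, two_smul]
    abel
  rw [← h6]
  exact h5

/-- velocity of `J` -/
def JJ1 (u : EuclideanSpace ℝ (Fin (n + 1))) (r : EuclideanSpace ℝ (Fin n)) (c : ℝ) (t : ℝ) : H :=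
  D.T (j (y1 t)) (D.α (u - ⟪y t, u⟫ • y t) + D.β (had r (cosv (s + t • σ))) + D.γ c) -
    D.T (j (y t)) (D.α (⟪y1 t, u⟫ • y t + ⟪y t, u⟫ • y1 t) +
      D.β (had r (had σ (sinv (s + t • σ)))))
    - D.I (had r (had σ (cosv (s + t • σ))))

/-- acceleration of `J` -/
def JJ2 (u : EuclideanSpace ℝ (Fin (n + 1))) (r : EuclideanSpace ℝ (Fin n)) (c : ℝ)
    (y2 : EuclideanSpace ℝ (Fin (n + 1))) (t : ℝ) : H :=
  D.T (j y2) (D.α (u - ⟪y t, u⟫ • y t) + D.β (had r (cosv (s + t • σ))) + D.γ c) -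
    (2 : ℝ) • D.T (j (y1 t)) (D.α (⟪y1 t, u⟫ • y t + ⟪y t, u⟫ • y1 t) +
      D.β (had r (had σ (sinv (s + t • σ))))) -
    D.T (j (y t)) (D.α (⟪y2, u⟫ • y t + (2 * ⟪y1 t, u⟫) • y1 t + ⟪y t, u⟫ • y2) +
      D.β (had r (had σ (had σ (cosv (s + t • σ))))))
    + D.I (had r (had σ (had σ (sinv (s + t • σ)))))

theorem Expl_proj_hasDerivAt (u : EuclideanSpace ℝ (Fin (n + 1))) (t : ℝ)
    (hy : HasDerivAt y (y1 t) t) :
    HasDerivAt (fun t => u - ⟪y t, u⟫ • y t) (-(⟪y1 t, u⟫ • y t + ⟪y t, u⟫ • y1 t)) t := by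
  have h1 : HasDerivAt (fun t => ⟪y t, u⟫) (⟪y1 t, u⟫) t := by
    have := hy.inner ℝ (hasDerivAt_const t u)
    simpa using this
  have h2 := (h1.smul hy).const_sub u
  have h3 : -(⟪y t, u⟫ • y1 t + ⟪y1 t, u⟫ • y t) = -(⟪y1 t, u⟫ • y t + ⟪y t, u⟫ • y1 t) := by
    rw [add_comm (⟪y t, u⟫ • y1 t)]
  rw [← h3]
  exact h2

theorem Expl_proj2_hasDerivAt (u y2 : EuclideanSpace ℝ (Fin (n + 1))) (t : ℝ)
    (hy : HasDerivAt y (y1 t) t) (hy1 : HasDerivAt y1 y2 t) :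
    HasDerivAt (fun t => ⟪y1 t, u⟫ • y t + ⟪y t, u⟫ • y1 t)
      (⟪y2, u⟫ • y t + (2 * ⟪y1 t, u⟫) • y1 t + ⟪y t, u⟫ • y2) t := by
  have h1 : HasDerivAt (fun t => ⟪y t, u⟫) (⟪y1 t, u⟫) t := by
    have := hy.inner ℝ (hasDerivAt_const t u)
    simpa using this
  have h1' : HasDerivAt (fun t => ⟪y1 t, u⟫) (⟪y2, u⟫) t := by
    have := hy1.inner ℝ (hasDerivAt_const t u)
    simpa using this
  have h2 := (h1'.smul hy).add (h1.smul hy1)
  have h3 : ⟪y1 t, u⟫ • y1 t + ⟪y2, u⟫ • y t + (⟪y t, u⟫ • y2 + ⟪y1 t, u⟫ • y1 t)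
      = ⟪y2, u⟫ • y t + (2 * ⟪y1 t, u⟫) • y1 t + ⟪y t, u⟫ • y2 := by
    rw [mul_smul, two_smul]
    abel
  rw [← h3]
  exact h2

theorem JJ_hasDerivAt (u : EuclideanSpace ℝ (Fin (n + 1))) (r : EuclideanSpace ℝ (Fin n)) (c : ℝ)
    (t : ℝ) (hy : HasDerivAt y (y1 t) t) :
    HasDerivAt (fun t => D.JJ (j (y t)) (y t) (s + t • σ) u r c)
      (JJ1 D j y y1 s σ u r c t) t := by
  have h1 : HasDerivAt (fun t => j (y t)) (j (y1 t)) t := j.hasFDerivAt.comp_hasDerivAt t hy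
  have h2 : HasDerivAt (fun t => D.α (u - ⟪y t, u⟫ • y t))
      (D.α (-(⟪y1 t, u⟫ • y t + ⟪y t, u⟫ • y1 t))) t :=
    D.α.hasFDerivAt.comp_hasDerivAt t (Expl_proj_hasDerivAt y y1 u t hy)
  have h3 : HasDerivAt (fun t : ℝ => D.β (had r (cosv (s + t • σ))))
      (D.β (had r (-had σ (sinv (s + t • σ))))) t :=
    D.β.hasFDerivAt.comp_hasDerivAt t (had_hasDerivAt r (hasDerivAt_cosv s σ t))
  have h4 : HasDerivAt (fun t : ℝ => D.I (had r (sinv (s + t • σ))))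
      (D.I (had r (had σ (cosv (s + t • σ))))) t :=
    D.I.hasFDerivAt.comp_hasDerivAt t (had_hasDerivAt r (hasDerivAt_sinv s σ t))
  have h5 := (D.T_hasDerivAt h1 ((h2.add h3).add_const (D.γ c))).sub h4
  have h6 : D.T (j (y1 t)) (D.α (u - ⟪y t, u⟫ • y t) + D.β (had r (cosv (s + t • σ))) + D.γ c) +
      D.T (j (y t)) (D.α (-(⟪y1 t, u⟫ • y t + ⟪y t, u⟫ • y1 t)) +
        D.β (had r (-had σ (sinv (s + t • σ)))))
      - D.I (had r (had σ (cosv (s + t • σ)))) = JJ1 D j y y1 s σ u r c t := by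
    unfold JJ1
    rw [TData.had_neg_right, map_neg, map_neg, ← neg_add, map_neg, ← sub_eq_add_neg]
  rw [← h6]
  exact h5

theorem JJ1_hasDerivAt (u : EuclideanSpace ℝ (Fin (n + 1))) (r : EuclideanSpace ℝ (Fin n)) (c : ℝ)
    (t : ℝ) (y2 : EuclideanSpace ℝ (Fin (n + 1))) (hy : HasDerivAt y (y1 t) t)
    (hy1 : HasDerivAt y1 y2 t) :
    HasDerivAt (JJ1 D j y y1 s σ u r c) (JJ2 D j y y1 s σ u r c y2 t) t := by
  have h1 : HasDerivAt (fun t => j (y t)) (j (y1 t)) t := j.hasFDerivAt.comp_hasDerivAt t hy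
  have h1' : HasDerivAt (fun t => j (y1 t)) (j y2) t := j.hasFDerivAt.comp_hasDerivAt t hy1
  have h2 : HasDerivAt (fun t => D.α (u - ⟪y t, u⟫ • y t))
      (D.α (-(⟪y1 t, u⟫ • y t + ⟪y t, u⟫ • y1 t))) t :=
    D.α.hasFDerivAt.comp_hasDerivAt t (Expl_proj_hasDerivAt y y1 u t hy)
  have h2' : HasDerivAt (fun t => D.α (⟪y1 t, u⟫ • y t + ⟪y t, u⟫ • y1 t))
      (D.α (⟪y2, u⟫ • y t + (2 * ⟪y1 t, u⟫) • y1 t + ⟪y t, u⟫ • y2)) t :=
    D.α.hasFDerivAt.comp_hasDerivAt t (Expl_proj2_hasDerivAt y y1 u y2 t hy hy1)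
  have h3 : HasDerivAt (fun t : ℝ => D.β (had r (cosv (s + t • σ))))
      (D.β (had r (-had σ (sinv (s + t • σ))))) t :=
    D.β.hasFDerivAt.comp_hasDerivAt t (had_hasDerivAt r (hasDerivAt_cosv s σ t))
  have h3' : HasDerivAt (fun t : ℝ => D.β (had r (had σ (sinv (s + t • σ)))))
      (D.β (had r (had σ (had σ (cosv (s + t • σ)))))) t :=
    D.β.hasFDerivAt.comp_hasDerivAt t
      (had_hasDerivAt r (had_hasDerivAt σ (hasDerivAt_sinv s σ t)))
  have h4 : HasDerivAt (fun t : ℝ => D.I (had r (had σ (cosv (s + t • σ)))))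
      (D.I (had r (had σ (-had σ (sinv (s + t • σ)))))) t :=
    D.I.hasFDerivAt.comp_hasDerivAt t
      (had_hasDerivAt r (had_hasDerivAt σ (hasDerivAt_cosv s σ t)))
  have h5 := ((D.T_hasDerivAt h1' ((h2.add h3).add_const (D.γ c))).sub
    (D.T_hasDerivAt h1 (h2'.add h3'))).sub h4
  have h6 : D.T (j y2) (D.α (u - ⟪y t, u⟫ • y t) + D.β (had r (cosv (s + t • σ))) + D.γ c) +
      D.T (j (y1 t)) (D.α (-(⟪y1 t, u⟫ • y t + ⟪y t, u⟫ • y1 t)) +
        D.β (had r (-had σ (sinv (s + t • σ))))) -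
      (D.T (j (y1 t)) (D.α (⟪y1 t, u⟫ • y t + ⟪y t, u⟫ • y1 t) +
        D.β (had r (had σ (sinv (s + t • σ))))) +
      D.T (j (y t)) (D.α (⟪y2, u⟫ • y t + (2 * ⟪y1 t, u⟫) • y1 t + ⟪y t, u⟫ • y2) +
        D.β (had r (had σ (had σ (cosv (s + t • σ)))))))
      - D.I (had r (had σ (-had σ (sinv (s + t • σ))))) = JJ2 D j y y1 s σ u r c y2 t := by
    unfold JJ2
    rw [TData.had_neg_right, TData.had_neg_right, TData.had_neg_right, map_neg, map_neg, ← neg_add,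
      map_neg (D.T (j (y1 t))), map_neg D.I, two_smul]
    abel
  rw [← h6]
  exact h5

end Curve

end Pool.Agent.helper7.MC
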