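import Pool.Agent.helper7.MC.Expl2
import Pool.Agent.helper98.MC.Polar

set_option autoImplicit false

/-!
# MC (MP_56b5c1), section 3: the tube map `F0` on `PS n Y W Z`
-/

open scoped Manifold ContDiff Topology InnerProductSpace

noncomputable section

namespace Pool.Agent.helper7.MC

open Pool.Agent.helper8.MC

/-! ### Great circles -/

section gc

variable {E : Type*} [NormedAddCommGroup E] [NormedSpace ℝ E]

/-- `cos (ϖ t) e + (sin (ϖ t) / ϖ) u` -/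
def gc (e u : E) (ϖ t : ℝ) : E := Real.cos (ϖ * t) • e + (Real.sin (ϖ * t) / ϖ) • u

/-- its velocity -/
def gc1 (e u : E) (ϖ t : ℝ) : E := (-(ϖ * Real.sin (ϖ * t))) • e + Real.cos (ϖ * t) • u

theorem gc_zero (e u : E) (ϖ : ℝ) : gc e u ϖ 0 = e := by simp [gc]

theorem gc1_zero (e u : E) (ϖ : ℝ) : gc1 e u ϖ 0 = u := by simp [gc1]

theorem gc_contDiff (e u : E) (ϖ : ℝ) : ContDiff ℝ ∞ (gc e u ϖ) := by
  unfold gc
  have h0 : ContDiff ℝ ∞ (fun t : ℝ => ϖ * t) := contDiff_const.mul contDiff_id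
  exact (h0.cos.smul contDiff_const).add ((h0.sin.div_const ϖ).smul contDiff_const)

theorem gc_hasDerivAt (e u : E) {ϖ : ℝ} (h : ϖ = 0 → u = 0) (t : ℝ) :
    HasDerivAt (gc e u ϖ) (gc1 e u ϖ t) t := by
  have h0 : HasDerivAt (fun t : ℝ => ϖ * t) ϖ t := by
    simpa using (hasDerivAt_id t).const_mul ϖ
  have h1 := (h0.cos.smul_const e).add ((h0.sin.div_const ϖ).smul_const u)
  have e1 : (-Real.sin (ϖ * t) * ϖ) • e + (Real.cos (ϖ * t) * ϖ / ϖ) • u = gc1 e u ϖ t := by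
    unfold gc1
    by_cases hϖ : ϖ = 0
    · rw [h hϖ]
      simp only [smul_zero, add_zero]
      congr 1
      ring
    · congr 1
      · congr 1
        ring
      · rw [mul_div_assoc, div_self hϖ, mul_one]
  rw [← e1]
  exact h1

theorem gc1_hasDerivAt (e u : E) {ϖ : ℝ} (h : ϖ = 0 → u = 0) (t : ℝ) :
    HasDerivAt (gc1 e u ϖ) (-(ϖ ^ 2) • gc e u ϖ t) t := by
  have h0 : HasDerivAt (fun t : ℝ => ϖ * t) ϖ t := by
    simpa using (hasDerivAt_id t).const_mul ϖ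
  have h1 := ((h0.sin.const_mul ϖ).neg.smul_const e).add (h0.cos.smul_const u)
  have e1 : (-(ϖ * (Real.cos (ϖ * t) * ϖ))) • e + (-Real.sin (ϖ * t) * ϖ) • u
      = -(ϖ ^ 2) • gc e u ϖ t := by
    unfold gc
    rw [smul_add, smul_smul, smul_smul]
    by_cases hϖ : ϖ = 0
    · rw [h hϖ, hϖ]
      simp
    · congr 1
      · congr 1
        ring
      · congr 1
        field_simp
  rw [← e1]
  exact h1

end gc

theorem gc_norm {Y : Type*} [NormedAddCommGroup Y] [InnerProductSpace ℝ Y] {e u : Y}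
    (he : ‖e‖ = 1) (heu : ⟪e, u⟫_ℝ = 0) (t : ℝ) : ‖gc e u ‖u‖ t‖ = 1 := by
  have h : ‖gc e u ‖u‖ t‖ ^ 2 = 1 := by
    unfold gc
    rw [norm_add_sq_real, norm_smul, norm_smul, real_inner_smul_left, real_inner_smul_right, heu,
      he, mul_pow, mul_pow, Real.norm_eq_abs, sq_abs, Real.norm_eq_abs, sq_abs]
    by_cases hϖ : ‖u‖ = 0
    · rw [hϖ]
      simp
    · have h1 : (Real.sin (‖u‖ * t) / ‖u‖) ^ 2 * ‖u‖ ^ 2 = Real.sin (‖u‖ * t) ^ 2 := by
        field_simp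
      have := Real.sin_sq_add_cos_sq (‖u‖ * t)
      rw [h1]
      linarith
  nlinarith [norm_nonneg (gc e u ‖u‖ t)]

section fibre

variable {W Z : Type*} [NormedAddCommGroup W] [InnerProductSpace ℝ W] [NormedAddCommGroup Z]
  [InnerProductSpace ℝ Z]

/-- The inner product of the fibre. -/
def bF (v v' : W × Z) : ℝ := ⟪v.1, v'.1⟫_ℝ + ⟪v.2, v'.2⟫_ℝ

theorem bF_self (v : W × Z) : bF v v = vN v ^ 2 := by
  rw [vN_sq, bF, real_inner_self_eq_norm_sq, real_inner_self_eq_norm_sq]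

theorem gc_vN {e u : W × Z} (he : vN e = 1) (heu : bF e u = 0) (t : ℝ) :
    vN (gc e u (vN u) t) = 1 := by
  have h : vN (gc e u (vN u) t) ^ 2 = 1 := by
    have h1 : (gc e u (vN u) t).1 = Real.cos (vN u * t) • e.1 + (Real.sin (vN u * t) / vN u) • u.1 :=
      rfl
    have h2 : (gc e u (vN u) t).2 = Real.cos (vN u * t) • e.2 + (Real.sin (vN u * t) / vN u) • u.2 :=
      rfl
    rw [vN_sq, h1, h2]
    obtain ⟨c, hc⟩ : ∃ c : ℝ, c = Real.cos (vN u * t) := ⟨_, rfl⟩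
    obtain ⟨d, hd⟩ : ∃ d : ℝ, d = Real.sin (vN u * t) / vN u := ⟨_, rfl⟩
    rw [← hc, ← hd, norm_add_sq_real, norm_add_sq_real, norm_smul, norm_smul, norm_smul, norm_smul,
      real_inner_smul_left, real_inner_smul_right, real_inner_smul_left, real_inner_smul_right,
      mul_pow, mul_pow, mul_pow, mul_pow, Real.norm_eq_abs, sq_abs, Real.norm_eq_abs, sq_abs]
    have e1 : ‖e.1‖ ^ 2 + ‖e.2‖ ^ 2 = 1 := by rw [← vN_sq, he, one_pow]
    have e2 : ‖u.1‖ ^ 2 + ‖u.2‖ ^ 2 = vN u ^ 2 := (vN_sq u).symm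
    have e3 : ⟪e.1, u.1⟫_ℝ + ⟪e.2, u.2⟫_ℝ = 0 := heu
    have e4 : c ^ 2 + d ^ 2 * vN u ^ 2 = 1 := by
      rw [hc, hd]
      by_cases hϖ : vN u = 0
      · rw [hϖ]
        simp
      · field_simp
        have := Real.sin_sq_add_cos_sq (vN u * t)
        linarith
    linear_combination c ^ 2 * e1 + d ^ 2 * e2 + 2 * c * d * e3 + e4
  nlinarith [vN_nonneg (gc e u (vN u) t)]

theorem vN_eq_zero {v : W × Z} (h : vN v = 0) : v = 0 := by
  by_contra hv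
  exact absurd h (vN_pos hv).ne'

end fibre

/-! ### Second derivatives along a curve -/

theorem second_along {E F : Type*} [NormedAddCommGroup E] [NormedSpace ℝ E]
    [NormedAddCommGroup F] [NormedSpace ℝ F] {f : E → F} {x x1 : ℝ → E} {x2 : E} {p w : E}
    (hf : ContDiffAt ℝ 2 f p) (hx0 : x 0 = p) (hx10 : x1 0 = w)
    (hx : ∀ t, HasDerivAt x (x1 t) t) (hx2 : HasDerivAt x1 x2 0) {P P1 : ℝ → F} {P2 : F}
    (hPf : ∀ t, P t = f (x t)) (hP : ∀ t, HasDerivAt P (P1 t) t) (hP2 : HasDerivAt P1 P2 0) :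
    P1 0 = fderiv ℝ f p w ∧ P2 = fderiv ℝ (fun z => fderiv ℝ f z w) p w + fderiv ℝ f p x2 := by
  subst hx0
  subst hx10
  have hev : ∀ᶠ t in 𝓝 (0 : ℝ), P1 t = fderiv ℝ f (x t) (x1 t) := by
    have h1 : ∀ᶠ z in 𝓝 (x 0), ContDiffAt ℝ 2 f z := hf.eventually (by norm_num)
    have h2 : ∀ᶠ t in 𝓝 (0 : ℝ), ContDiffAt ℝ 2 f (x t) := (hx 0).continuousAt.eventually h1
    filter_upwards [h2] with t ht
    have h3 := (ht.differentiableAt (by norm_num)).hasFDerivAt.comp_hasDerivAt t (hx t)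
    have h4 : HasDerivAt P (fderiv ℝ f (x t) (x1 t)) t := by
      have : P = f ∘ x := funext hPf
      rw [this]
      exact h3
    exact (hP t).unique h4
  refine ⟨hev.self_of_nhds, ?_⟩
  have hdf : DifferentiableAt ℝ (fderiv ℝ f) (x 0) :=
    (hf.fderiv_right (m := 1) (by norm_num)).differentiableAt (by norm_num)
  have h5 : HasDerivAt (fun t => fderiv ℝ f (x t)) (fderiv ℝ (fderiv ℝ f) (x 0) (x1 0)) 0 :=
    hdf.hasFDerivAt.comp_hasDerivAt 0 (hx 0)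
  have h6 : HasDerivAt (fun t => fderiv ℝ f (x t) (x1 t))
      (fderiv ℝ (fderiv ℝ f) (x 0) (x1 0) (x1 0) + fderiv ℝ f (x 0) x2) 0 := h5.clm_apply hx2
  have h7 : HasFDerivAt (fun z => fderiv ℝ f z (x1 0))
      ((fderiv ℝ (fderiv ℝ f) (x 0)).flip (x1 0)) (x 0) := by
    have := hdf.hasFDerivAt.clm_apply (hasFDerivAt_const (x1 0) (x 0))
    rw [ContinuousLinearMap.comp_zero, zero_add] at this
    exact this
  rw [h7.fderiv]
  exact hP2.unique (h6.congr_of_eventuallyEq hev)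

/-! ### The data -/

section data

variable {n : ℕ} {V A H W Z : Type*} [NormedAddCommGroup V] [InnerProductSpace ℝ V]
    [NormedAddCommGroup A] [InnerProductSpace ℝ A] [NormedAddCommGroup H]
    [InnerProductSpace ℝ H] [NormedAddCommGroup W] [InnerProductSpace ℝ W] [NormedAddCommGroup Z]
    [InnerProductSpace ℝ Z]

/-- The properties of `Θ`. -/
structure ThData (D : TData n V A H) (j : Eu (n + 1) →L[ℝ] V)
    (Θ : Eu (n + 1) → Eu n → (W × Z →L[ℝ] H)) : Prop where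
  smooth : ContDiff ℝ ∞ (fun q : Eu (n + 1) × Eu n => Θ q.1 q.2)
  norm : ∀ y, ‖y‖ = 1 → ∀ s v, ‖Θ y s v‖ = vN v
  orth : ∀ y, ‖y‖ = 1 → ∀ s v u r c, ⟪Θ y s v, D.JJ (j y) y s u r c⟫_ℝ = 0
  full : ∀ y, ‖y‖ = 1 → ∀ s q, (∀ u r c, ⟪q, D.JJ (j y) y s u r c⟫_ℝ = 0) → ∃ v, Θ y s v = q
  act : ∀ (g : Gam n) y s v, Θ (g.sg • y) (g.sg • s + per g.k) (g.sg • v.1, v.2) = Θ y s v

variable (D : TData n V A H) (j : Eu (n + 1) →L[ℝ] V)
    (Θ : Eu (n + 1) → Eu n → (W × Z →L[ℝ] H))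

theorem ThData.inner {D : TData n V A H} {j : Eu (n + 1) →L[ℝ] V}
    {Θ : Eu (n + 1) → Eu n → (W × Z →L[ℝ] H)} (hΘ : ThData D j Θ) {y : Eu (n + 1)}
    (hy : ‖y‖ = 1) (s : Eu n) (v v' : W × Z) : ⟪Θ y s v, Θ y s v'⟫_ℝ = bF v v' := by
  have h1 := hΘ.norm y hy s (v + v')
  have h2 := hΘ.norm y hy s v
  have h3 := hΘ.norm y hy s v'
  have h4 : ‖Θ y s v + Θ y s v'‖ ^ 2 = vN (v + v') ^ 2 := by rw [← map_add, h1]
  rw [norm_add_sq_real, h2, h3, vN_sq, vN_sq, vN_sq, Prod.fst_add, Prod.snd_add,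
    norm_add_sq_real, norm_add_sq_real] at h4
  unfold bF
  linarith

/-- The map on normalized points. -/
def G0 (q : PS n (Eu (n + 1)) W Z) : H :=
  D.Phi (j q.1) q.1 q.2.1 + (1 / 10 : ℝ) • Θ q.1 q.2.1 q.2.2

/-- The tube map. -/
def F0 (p : PS n (Eu (n + 1)) W Z) : H := G0 D j Θ (nrm p)

theorem Phi_contDiff : ContDiff ℝ ∞ (fun q : Eu (n + 1) × Eu n => D.Phi (j q.1) q.1 q.2) := by
  have h1 : ContDiff ℝ ∞ (fun q : Eu (n + 1) × Eu n => sinv q.2) := by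
    rw [contDiff_euclidean]
    intro i
    have : ContDiff ℝ ∞ (fun q : Eu (n + 1) × Eu n => q.2 i) :=
      (contDiff_euclidean.1 contDiff_id i).comp contDiff_snd
    exact this.sin
  have h2 : ContDiff ℝ ∞ (fun q : Eu (n + 1) × Eu n => cosv q.2) := by
    rw [contDiff_euclidean]
    intro i
    have : ContDiff ℝ ∞ (fun q : Eu (n + 1) × Eu n => q.2 i) :=
      (contDiff_euclidean.1 contDiff_id i).comp contDiff_snd
    exact this.cos
  have h5 : ContDiff ℝ ∞ (fun q : Eu (n + 1) × Eu n => D.T (j q.1)) :=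
    D.T.contDiff.comp (j.contDiff.comp contDiff_fst)
  have h7 : ContDiff ℝ ∞ (fun q : Eu (n + 1) × Eu n => √n • D.α q.1) :=
    contDiff_const.smul (D.α.contDiff.comp contDiff_fst)
  unfold TData.Phi
  exact (h5.clm_apply (h7.add (D.β.contDiff.comp h1))).add (D.I.contDiff.comp h2)

theorem G0_contDiff (hΘ : ThData D j Θ) : ContDiff ℝ ∞ (G0 (W := W) (Z := Z) D j Θ) := by
  have h1 : ContDiff ℝ ∞ (fun q : PS n (Eu (n + 1)) W Z => ((q.1, q.2.1) : Eu (n + 1) × Eu n)) :=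
    contDiff_fst.prodMk (contDiff_fst.comp contDiff_snd)
  have h2 : ContDiff ℝ ∞ (fun q : PS n (Eu (n + 1)) W Z => q.2.2) :=
    contDiff_snd.comp contDiff_snd
  have h3 := (Phi_contDiff D j).comp h1
  have h4 := hΘ.smooth.comp h1
  exact h3.add (contDiff_const.smul (h4.clm_apply h2))

theorem F0_contDiffOn (hΘ : ThData D j Θ) :
    ContDiffOn ℝ ∞ (F0 (W := W) (Z := Z) D j Θ) (gamOpen n (Eu (n + 1)) W Z) :=
  (G0_contDiff D j Θ hΘ).comp_contDiffOn contDiffOn_nrm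

theorem F0_norm_le [CompleteSpace H] (hj : ∀ u u', ⟪j u, j u'⟫_ℝ = ⟪u, u'⟫_ℝ) (hΘ : ThData D j Θ)
    {p : PS n (Eu (n + 1)) W Z} (hp : p ∈ gamOpen n (Eu (n + 1)) W Z) :
    ‖F0 D j Θ p‖ ≤ √(2 * n) + 1 := by
  have hy := norm_nrm_fst hp
  have hjy : ‖j (nrm p).1‖ = 1 := by
    have h1 := hj (nrm p).1 (nrm p).1
    rw [real_inner_self_eq_norm_sq, real_inner_self_eq_norm_sq, hy] at h1
    nlinarith [norm_nonneg (j (nrm p).1)]
  unfold F0 G0
  refine (norm_add_le _ _).trans (add_le_add ?_ ?_)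
  · refine Real.le_sqrt_of_sq_le ?_
    rw [D.norm_Phi _ hjy _ hy]
  · rw [norm_smul, hΘ.norm _ hy, vN_nrm hp]
    norm_num

theorem F0_act (hPhi : ∀ (g : Gam n) y s, D.Phi (j (g.sg • y)) (g.sg • y) (g.sg • s + per g.k)
    = D.Phi (j y) y s) (hΘ : ThData D j Θ) (g : Gam n) (p : PS n (Eu (n + 1)) W Z) :
    F0 D j Θ (gamAct g p) = F0 D j Θ p := by
  unfold F0 G0
  rw [nrm_gamAct]
  show D.Phi (j (g.sg • (nrm p).1)) (g.sg • (nrm p).1) (g.sg • (nrm p).2.1 + per g.k) +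
    (1 / 10 : ℝ) • Θ (g.sg • (nrm p).1) (g.sg • (nrm p).2.1 + per g.k)
      (g.sg • (nrm p).2.2.1, (nrm p).2.2.2) = _
  rw [hPhi, hΘ.act]

theorem F0_fderiv (hΘ : ThData D j Θ) {p : PS n (Eu (n + 1)) W Z}
    (hp : p ∈ gamOpen n (Eu (n + 1)) W Z) (u : PS n (Eu (n + 1)) W Z) :
    fderiv ℝ (F0 D j Θ) p u = fderiv ℝ (G0 D j Θ) (nrm p) (fderiv ℝ nrm p u) := by
  have h1 : HasFDerivAt (F0 D j Θ) _ p :=
    (((G0_contDiff D j Θ hΘ).differentiable (by simp)) (nrm p)).hasFDerivAt.comp p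
      (hasFDerivAt_nrm hp)
  rw [h1.fderiv]
  rfl

theorem F0_radial1 (hΘ : ThData D j Θ) {p : PS n (Eu (n + 1)) W Z}
    (hp : p ∈ gamOpen n (Eu (n + 1)) W Z) : fderiv ℝ (F0 D j Θ) p (p.1, 0, 0) = 0 := by
  rw [F0_fderiv D j Θ hΘ hp, (radial_fst hp).2.2, map_zero]

theorem F0_radial2 (hΘ : ThData D j Θ) {p : PS n (Eu (n + 1)) W Z}
    (hp : p ∈ gamOpen n (Eu (n + 1)) W Z) : fderiv ℝ (F0 D j Θ) p (0, 0, p.2.2) = 0 := by
  rw [F0_fderiv D j Θ hΘ hp, (radial_snd hp).2.2, map_zero]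

/-- the derivative of `G0` in a fibre direction -/
theorem G0_fderiv_fibre (hΘ : ThData D j Θ) (q : PS n (Eu (n + 1)) W Z) (v : W × Z) :
    fderiv ℝ (G0 D j Θ) q (0, 0, v) = (1 / 10 : ℝ) • Θ q.1 q.2.1 v := by
  have h1 : HasDerivAt (fun t : ℝ => q + t • ((0, 0, v) : PS n (Eu (n + 1)) W Z)) (0, 0, v) 0 := by
    have := ((hasDerivAt_id (0 : ℝ)).smul_const ((0, 0, v) : PS n (Eu (n + 1)) W Z)).const_add q
    simpa using this
  have h2 : HasDerivAt (fun t : ℝ => G0 D j Θ (q + t • ((0, 0, v) : PS n (Eu (n + 1)) W Z)))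
      (fderiv ℝ (G0 D j Θ) q (0, 0, v)) 0 := by
    have h3 : HasFDerivAt (G0 D j Θ) (fderiv ℝ (G0 D j Θ) q)
        (q + (0 : ℝ) • ((0, 0, v) : PS n (Eu (n + 1)) W Z)) := by
      rw [zero_smul, add_zero]
      exact (((G0_contDiff D j Θ hΘ).differentiable (by simp)) q).hasFDerivAt
    exact h3.comp_hasDerivAt 0 h1
  have h4 : HasDerivAt (fun t : ℝ => G0 D j Θ (q + t • ((0, 0, v) : PS n (Eu (n + 1)) W Z)))
      ((1 / 10 : ℝ) • Θ q.1 q.2.1 v) 0 := by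
    have e : (fun t : ℝ => G0 D j Θ (q + t • ((0, 0, v) : PS n (Eu (n + 1)) W Z)))
        = fun t : ℝ => G0 D j Θ q + t • ((1 / 10 : ℝ) • Θ q.1 q.2.1 v) := by
      funext t
      unfold G0
      have e1 : (q + t • ((0, 0, v) : PS n (Eu (n + 1)) W Z)).1 = q.1 := by simp
      have e2 : (q + t • ((0, 0, v) : PS n (Eu (n + 1)) W Z)).2.1 = q.2.1 := by simp
      have e3 : (q + t • ((0, 0, v) : PS n (Eu (n + 1)) W Z)).2.2 = q.2.2 + t • v := rfl
      rw [e1, e2, e3, map_add, map_smul, smul_add, smul_comm t]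
      abel
    rw [e]
    have := ((hasDerivAt_id (0 : ℝ)).smul_const ((1 / 10 : ℝ) • Θ q.1 q.2.1 v)).const_add
      (G0 D j Θ q)
    simpa using this
  exact h2.unique h4

end data

end Pool.Agent.helper7.MC
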