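import Pool.Agent.helper7.MC.F0

set_option autoImplicit false

/-!
# MC (MP_56b5c1), section 3: curvature and kernel of the tube map `F0`
-/

open scoped Manifold ContDiff Topology InnerProductSpace

noncomputable section

namespace Pool.Agent.helper7.MC

open Pool.Agent.helper8.MC

section curv

/-- smooth curves -/
theorem curve_smooth {E : Type*} [NormedAddCommGroup E] [NormedSpace ℝ E] {c : ℝ → E}
    (hc : ContDiff ℝ ∞ c) : (∀ t, HasDerivAt c (deriv c t) t) ∧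
      HasDerivAt (deriv c) (deriv (deriv c) 0) 0 := by
  have h1 : Differentiable ℝ c := hc.differentiable (by simp)
  have h2 : ContDiff ℝ 1 (deriv c) := by
    have h3 : ContDiff ℝ (1 + 1) c := hc.of_le (WithTop.coe_le_coe.2 le_top)
    exact (contDiff_succ_iff_deriv.1 h3).2.2
  exact ⟨fun t => (h1 t).hasDerivAt, ((h2.differentiable (by norm_num)) 0).hasDerivAt⟩

variable {n : ℕ} {V A H W Z : Type*} [NormedAddCommGroup V] [InnerProductSpace ℝ V]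
    [NormedAddCommGroup A] [InnerProductSpace ℝ A] [NormedAddCommGroup H]
    [InnerProductSpace ℝ H] [NormedAddCommGroup W] [InnerProductSpace ℝ W] [NormedAddCommGroup Z]
    [InnerProductSpace ℝ Z]

/-- The derivative of the normalization is tangent. -/
theorem nrm_tangent' {p : PS n (Eu (n + 1)) W Z} (hp : p ∈ gamOpen n (Eu (n + 1)) W Z)
    (w : PS n (Eu (n + 1)) W Z) :
    ⟪(nrm p).1, (fderiv ℝ nrm p w).1⟫_ℝ = 0 ∧ bF (nrm p).2.2 (fderiv ℝ nrm p w).2.2 = 0 := by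
  obtain ⟨a, ha⟩ : ∃ a : ℝ, a = fderiv ℝ al p w := ⟨_, rfl⟩
  obtain ⟨b, hb⟩ : ∃ b : ℝ, b = fderiv ℝ be p w := ⟨_, rfl⟩
  obtain ⟨r1, r2, r3⟩ := radial_fst hp
  obtain ⟨s1, s2, s3⟩ := radial_snd hp
  obtain ⟨w', hw'⟩ : ∃ w' : PS n (Eu (n + 1)) W Z,
      w' = w - a • (p.1, 0, 0) - b • (0, 0, p.2.2) := ⟨_, rfl⟩
  have h1 : fderiv ℝ al p w' = 0 := by
    rw [hw', map_sub, map_sub, map_smul, map_smul, r1, s1, ← ha]
    simp
  have h2 : fderiv ℝ be p w' = 0 := by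
    rw [hw', map_sub, map_sub, map_smul, map_smul, r2, s2, ← hb]
    simp
  have h3 : fderiv ℝ nrm p w' = fderiv ℝ nrm p w := by
    rw [hw', map_sub, map_sub, map_smul, map_smul, r3, s3]
    simp
  obtain ⟨t1, t2, -⟩ := nrm_tangent hp h1 h2
  rw [h3] at t1 t2
  exact ⟨t1, t2⟩

/-- a fibre direction -/
theorem fderiv_nrm_fibre {p : PS n (Eu (n + 1)) W Z} (hp : p ∈ gamOpen n (Eu (n + 1)) W Z)
    (v : W × Z) (hv : bF v (nrm p).2.2 = 0) :
    fderiv ℝ (nrm : PS n (Eu (n + 1)) W Z → PS n (Eu (n + 1)) W Z) p (0, 0, vN p.2.2 • v)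
      = (0, 0, v) := by
  have hpos := vN_pos hp.2
  have e1 : fderiv ℝ (al : PS n (Eu (n + 1)) W Z → ℝ) p (0, 0, vN p.2.2 • v) = 0 := by
    rw [fderiv_al hp]
    simp
  have e2 : fderiv ℝ (be : PS n (Eu (n + 1)) W Z → ℝ) p (0, 0, vN p.2.2 • v) = 0 := by
    rw [fderiv_be hp]
    have h1 : (nrm p).2.2 = (vN p.2.2)⁻¹ • p.2.2 := rfl
    rw [h1] at hv
    unfold bF at hv
    rw [Prod.smul_fst, Prod.smul_snd, real_inner_smul_right, real_inner_smul_right,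
      ← mul_add] at hv
    have h2 : ⟪v.1, p.2.2.1⟫_ℝ + ⟪v.2, p.2.2.2⟫_ℝ = 0 := by
      rcases mul_eq_zero.1 hv with h | h
      · exact absurd h (inv_ne_zero hpos.ne')
      · exact h
    show (vN p.2.2 ^ 2)⁻¹ * (⟪p.2.2.1, vN p.2.2 • v.1⟫_ℝ + ⟪p.2.2.2, vN p.2.2 • v.2⟫_ℝ) = 0
    rw [real_inner_smul_right, real_inner_smul_right, ← mul_add, real_inner_comm v.1,
      real_inner_comm v.2, h2]
    ring
  rw [fderiv_nrm hp, e1, e2]
  refine Prod.ext ?_ (Prod.ext ?_ ?_)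
  · simp
  · rfl
  · show (vN p.2.2)⁻¹ • (vN p.2.2 • v - (0 : ℝ) • p.2.2) = v
    rw [zero_smul, sub_zero, smul_smul, inv_mul_cancel₀ hpos.ne', one_smul]

variable [CompleteSpace H] (D : TData n V A H) (j : Eu (n + 1) →L[ℝ] V)
    (Θ : Eu (n + 1) → Eu n → (W × Z →L[ℝ] H))

theorem F0_both (hn : 1 ≤ n) (hj : ∀ u u', ⟪j u, j u'⟫_ℝ = ⟪u, u'⟫_ℝ) (hΘ : ThData D j Θ)
    {p : PS n (Eu (n + 1)) W Z} (hp : p ∈ gamOpen n (Eu (n + 1)) W Z)
    (w : PS n (Eu (n + 1)) W Z) :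
    (∀ ν : H, (∀ u, ⟪fderiv ℝ (F0 D j Θ) p u, ν⟫_ℝ = 0) →
      |⟪fderiv ℝ (fun z => fderiv ℝ (F0 D j Θ) z w) p w, ν⟫_ℝ| ≤
        662 * ‖fderiv ℝ (F0 D j Θ) p w‖ ^ 2 * ‖ν‖) ∧
    (fderiv ℝ (F0 D j Θ) p w = 0 → fderiv ℝ nrm p w = 0) := by
  -- the normalized point and velocity
  obtain ⟨e, he⟩ : ∃ e : Eu (n + 1), e = (nrm p).1 := ⟨_, rfl⟩
  obtain ⟨f, hf⟩ : ∃ f : W × Z, f = (nrm p).2.2 := ⟨_, rfl⟩
  obtain ⟨u1, hu1⟩ : ∃ u1 : Eu (n + 1), u1 = (fderiv ℝ nrm p w).1 := ⟨_, rfl⟩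
  obtain ⟨u2, hu2⟩ : ∃ u2 : W × Z, u2 = (fderiv ℝ nrm p w).2.2 := ⟨_, rfl⟩
  obtain ⟨a, ha⟩ : ∃ a : ℝ, a = fderiv ℝ al p w := ⟨_, rfl⟩
  obtain ⟨b, hb⟩ : ∃ b : ℝ, b = fderiv ℝ be p w := ⟨_, rfl⟩
  have he1 : ‖e‖ = 1 := by rw [he]; exact norm_nrm_fst hp
  have hf1 : vN f = 1 := by rw [hf]; exact vN_nrm hp
  obtain ⟨t1, t2⟩ := nrm_tangent' hp w
  rw [← he, ← hu1] at t1
  rw [← hf, ← hu2] at t2
  have hY0 : ‖u1‖ = 0 → u1 = 0 := norm_eq_zero.1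
  have hF0' : vN u2 = 0 → u2 = 0 := vN_eq_zero
  have hyp : 0 < ‖p.1‖ := norm_pos_iff.2 hp.1
  have hvp : 0 < vN p.2.2 := vN_pos hp.2
  -- the curves
  obtain ⟨Y, hY⟩ : ∃ Y : ℝ → Eu (n + 1), Y = gc e u1 ‖u1‖ := ⟨_, rfl⟩
  obtain ⟨Y1, hY1⟩ : ∃ Y1 : ℝ → Eu (n + 1), Y1 = gc1 e u1 ‖u1‖ := ⟨_, rfl⟩
  obtain ⟨F, hF⟩ : ∃ F : ℝ → W × Z, F = gc f u2 (vN u2) := ⟨_, rfl⟩
  have hYn : ∀ t, ‖Y t‖ = 1 := fun t => by rw [hY]; exact gc_norm he1 t1 t
  have hFn : ∀ t, vN (F t) = 1 := fun t => by rw [hF]; exact gc_vN hf1 t2 t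
  have hYc : ContDiff ℝ ∞ Y := by rw [hY]; exact gc_contDiff _ _ _
  have hFc : ContDiff ℝ ∞ F := by rw [hF]; exact gc_contDiff _ _ _
  have hYd : ∀ t, HasDerivAt Y (Y1 t) t := fun t => by
    rw [hY, hY1]; exact gc_hasDerivAt e u1 hY0 t
  have hY00 : Y 0 = e := by rw [hY]; exact gc_zero _ _ _
  have hY10 : Y1 0 = u1 := by rw [hY1]; exact gc1_zero _ _ _
  have hY1d : HasDerivAt Y1 (-(‖Y1 0‖ ^ 2) • Y 0) 0 := by
    rw [hY10, hY, hY1]
    exact gc1_hasDerivAt e u1 hY0 0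
  have hF00 : F 0 = f := by rw [hF]; exact gc_zero _ _ _
  have hFd : HasDerivAt F u2 0 := by
    have := gc_hasDerivAt f u2 hF0' 0
    rw [gc1_zero] at this
    rw [hF]
    exact this
  -- the curve in the domain
  obtain ⟨x, hx⟩ : ∃ x : ℝ → PS n (Eu (n + 1)) W Z, x = fun t =>
    (Real.exp (al p + a * t) • Y t, p.2.1 + t • w.2.1, Real.exp (be p + b * t) • F t) := ⟨_, rfl⟩
  have hxc : ContDiff ℝ ∞ x := by
    rw [hx]
    have h1 : ContDiff ℝ ∞ (fun t : ℝ => Real.exp (al p + a * t)) :=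
      (contDiff_const.add (contDiff_const.mul contDiff_id)).exp
    have h2 : ContDiff ℝ ∞ (fun t : ℝ => Real.exp (be p + b * t)) :=
      (contDiff_const.add (contDiff_const.mul contDiff_id)).exp
    have h3 : ContDiff ℝ ∞ (fun t : ℝ => p.2.1 + t • w.2.1) :=
      contDiff_const.add (contDiff_id.smul contDiff_const)
    exact (h1.smul hYc).prodMk (h3.prodMk (h2.smul hFc))
  have hexpa : Real.exp (al p) = ‖p.1‖ := Real.exp_log hyp
  have hexpb : Real.exp (be p) = vN p.2.2 := Real.exp_log hvp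
  have hpe : ‖p.1‖ • e = p.1 := by
    rw [he]
    show ‖p.1‖ • (‖p.1‖⁻¹ • p.1) = p.1
    rw [smul_smul, mul_inv_cancel₀ hyp.ne', one_smul]
  have hpf : vN p.2.2 • f = p.2.2 := by
    rw [hf]
    show vN p.2.2 • ((vN p.2.2)⁻¹ • p.2.2) = p.2.2
    rw [smul_smul, mul_inv_cancel₀ hvp.ne', one_smul]
  have hx0 : x 0 = p := by
    rw [hx]
    refine Prod.ext ?_ (Prod.ext ?_ ?_)
    · show Real.exp (al p + a * 0) • Y 0 = p.1
      rw [mul_zero, add_zero, hexpa, hY00, hpe]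
    · show p.2.1 + (0 : ℝ) • w.2.1 = p.2.1
      rw [zero_smul, add_zero]
    · show Real.exp (be p + b * 0) • F 0 = p.2.2
      rw [mul_zero, add_zero, hexpb, hF00, hpf]
  have hDn := fderiv_nrm hp w
  have hx1 : HasDerivAt x w 0 := by
    have h1 : HasDerivAt (fun t : ℝ => Real.exp (al p + a * t)) (‖p.1‖ * a) 0 := by
      have h2 : HasDerivAt (fun t : ℝ => al p + a * t) a 0 := by
        simpa using ((hasDerivAt_id (0 : ℝ)).const_mul a).const_add (al p)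
      have h3 := h2.exp
      rw [mul_zero, add_zero, hexpa] at h3
      exact h3
    have h1' : HasDerivAt (fun t : ℝ => Real.exp (be p + b * t)) (vN p.2.2 * b) 0 := by
      have h2 : HasDerivAt (fun t : ℝ => be p + b * t) b 0 := by
        simpa using ((hasDerivAt_id (0 : ℝ)).const_mul b).const_add (be p)
      have h3 := h2.exp
      rw [mul_zero, add_zero, hexpb] at h3
      exact h3
    have h4 : HasDerivAt (fun t : ℝ => p.2.1 + t • w.2.1) w.2.1 0 := by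
      simpa using ((hasDerivAt_id (0 : ℝ)).smul_const w.2.1).const_add p.2.1
    have h5 := (h1.smul (hYd 0)).prodMk (h4.prodMk (h1'.smul hFd))
    rw [hx]
    refine h5.congr_deriv ?_
    have c1 : u1 = ‖p.1‖⁻¹ • (w.1 - a • p.1) := by rw [hu1, hDn, ha]
    have c2 : u2 = (vN p.2.2)⁻¹ • (w.2.2 - b • p.2.2) := by rw [hu2, hDn, hb]
    refine Prod.ext ?_ (Prod.ext ?_ ?_)
    · show Real.exp (al p + a * 0) • Y1 0 + (‖p.1‖ * a) • Y 0 = w.1
      rw [mul_zero, add_zero, hexpa, hY10, hY00, c1, smul_smul, mul_inv_cancel₀ hyp.ne', one_smul,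
        mul_comm, mul_smul, hpe]
      abel
    · rfl
    · show Real.exp (be p + b * 0) • u2 + (vN p.2.2 * b) • F 0 = w.2.2
      rw [mul_zero, add_zero, hexpb, hF00, c2, smul_smul, mul_inv_cancel₀ hvp.ne', one_smul,
        mul_comm, mul_smul, hpf]
      abel
  obtain ⟨hxd, hxd2⟩ := curve_smooth hxc
  have hx10 : deriv x 0 = w := hx1.deriv
  -- the normalization along the curve
  have hnx : ∀ t, nrm (x t) = (Y t, p.2.1 + t • w.2.1, F t) := by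
    intro t
    rw [hx]
    refine Prod.ext ?_ (Prod.ext rfl ?_)
    · show ‖Real.exp (al p + a * t) • Y t‖⁻¹ • (Real.exp (al p + a * t) • Y t) = Y t
      rw [norm_smul, hYn, mul_one, Real.norm_eq_abs, abs_of_pos (Real.exp_pos _), smul_smul,
        inv_mul_cancel₀ (Real.exp_pos _).ne', one_smul]
    · show (vN (Real.exp (be p + b * t) • F t))⁻¹ • (Real.exp (be p + b * t) • F t) = F t
      rw [vN_smul, hFn, mul_one, abs_of_pos (Real.exp_pos _), smul_smul,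
        inv_mul_cancel₀ (Real.exp_pos _).ne', one_smul]
  -- the unit vector
  obtain ⟨v, hv⟩ : ∃ v : ℝ → H, v = fun t => Θ (Y t) (p.2.1 + t • w.2.1) (F t) := ⟨_, rfl⟩
  have hvc : ContDiff ℝ ∞ v := by
    rw [hv]
    have h3 : ContDiff ℝ ∞ (fun t : ℝ => p.2.1 + t • w.2.1) :=
      contDiff_const.add (contDiff_id.smul contDiff_const)
    exact (hΘ.smooth.comp (hYc.prodMk h3)).clm_apply hFc
  obtain ⟨hvd, hvd2⟩ := curve_smooth hvc
  have hvn : ∀ t, ‖v t‖ = 1 := by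
    intro t
    rw [hv]
    show ‖Θ (Y t) (p.2.1 + t • w.2.1) (F t)‖ = 1
    rw [hΘ.norm _ (hYn t), hFn]
  have hvJ : ∀ t u r c, ⟪v t, D.JJ (j (Y t)) (Y t) (p.2.1 + t • w.2.1) u r c⟫_ℝ = 0 := by
    intro t u r c
    rw [hv]
    exact hΘ.orth _ (hYn t) _ _ _ _ _
  -- the image curve
  obtain ⟨P1, hP1⟩ : ∃ P1 : ℝ → H, P1 = fun t => Phi1 D j Y Y1 p.2.1 w.2.1 t +
    (1 / 10 : ℝ) • deriv v t := ⟨_, rfl⟩
  have hP : ∀ t, HasDerivAt (fun t => F0 D j Θ (x t)) (P1 t) t := by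
    intro t
    have h1 : (fun t => F0 D j Θ (x t)) = fun t =>
        D.Phi (j (Y t)) (Y t) (p.2.1 + t • w.2.1) + (1 / 10 : ℝ) • v t := by
      funext t
      unfold F0 G0
      rw [hnx, hv]
    rw [h1, hP1]
    exact (Phi_hasDerivAt D j Y Y1 p.2.1 w.2.1 t (hYd t)).add ((hvd t).const_smul _)
  have hPd : HasDerivAt P1 (Phi2 D j Y Y1 p.2.1 w.2.1 (-(‖Y1 0‖ ^ 2) • Y 0) 0 +
      (1 / 10 : ℝ) • deriv (deriv v) 0) 0 := by
    rw [hP1]
    exact (Phi1_hasDerivAt D j Y Y1 p.2.1 w.2.1 0 _ (hYd 0) hY1d).add (hvd2.const_smul _)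
  have hFs : ContDiffAt ℝ 2 (F0 D j Θ) p :=
    ((F0_contDiffOn D j Θ hΘ).contDiffAt (isOpen_gamOpen.mem_nhds hp)).of_le
      (WithTop.coe_le_coe.2 le_top)
  obtain ⟨k1, k2⟩ := second_along hFs hx0 hx10 hxd hxd2 (fun t => rfl) hP hPd
  have hY0n : ‖Y 0‖ = 1 := hYn 0
  have hYo : ⟪Y 0, Y1 0⟫_ℝ = 0 := by rw [hY00, hY10]; exact t1
  refine ⟨?_, ?_⟩
  · intro ν hν
    have hest := explicit_estimate D j Y Y1 p.2.1 w.2.1 hn hj hY0n hYo hYd hY1d v (deriv v)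
      (deriv (deriv v) 0) hvd hvd2 hvn hvJ ν (by
        intro q hq1 hq2
        rw [hY00] at hq2
        obtain ⟨v', hv'⟩ := hΘ.full e he1 p.2.1 q hq2
        have h1 : bF v' (nrm p).2.2 = 0 := by
          have h2 : v 0 = Θ e p.2.1 f := by
            rw [hv]
            show Θ (Y 0) (p.2.1 + (0 : ℝ) • w.2.1) (F 0) = _
            rw [zero_smul, add_zero, hY00, hF00]
          rw [h2, ← hv', hΘ.inner he1] at hq1
          rw [← hf]
          exact hq1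
        have h3 := hν (0, 0, vN p.2.2 • v')
        rw [F0_fderiv D j Θ hΘ hp, fderiv_nrm_fibre hp v' h1, G0_fderiv_fibre D j Θ hΘ,
          real_inner_smul_left, ← he] at h3
        have h4 : (nrm p).2.1 = p.2.1 := rfl
        rw [h4, hv'] at h3
        rw [real_inner_comm]
        linarith)
    have e1 : Phi1 D j Y Y1 p.2.1 w.2.1 0 + (1 / 10 : ℝ) • deriv v 0 = P1 0 := by rw [hP1]
    rw [e1, k1, k2, inner_add_right, real_inner_comm (fderiv ℝ (F0 D j Θ) p _) ν, hν,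
      add_zero, real_inner_comm] at hest
    exact hest
  · intro h0
    have e1 : Phi1 D j Y Y1 p.2.1 w.2.1 0 + (1 / 10 : ℝ) • deriv v 0 = P1 0 := by rw [hP1]
    obtain ⟨i1, i2, i3⟩ := explicit_first D j Y Y1 p.2.1 w.2.1 hn hj hY0n hYo hYd v (deriv v)
      hvd hvn hvJ (by rw [e1, k1, h0])
    rw [hY10] at i1
    have hYe : ∀ t, Y t = e := by
      intro t
      rw [hY, i1]
      simp [gc]
    have hve : v = fun t => Θ e p.2.1 (F t) := by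
      rw [hv]
      funext t
      rw [hYe, i2, smul_zero, add_zero]
    have hvder : HasDerivAt v (Θ e p.2.1 u2) 0 := by
      rw [hve]
      exact (Θ e p.2.1).hasFDerivAt.comp_hasDerivAt 0 hFd
    have h5 : Θ e p.2.1 u2 = 0 := by rw [← hvder.deriv, i3]
    have h6 : vN u2 = 0 := by rw [← hΘ.norm e he1 p.2.1 u2, h5, norm_zero]
    have h7 : u2 = 0 := vN_eq_zero h6
    refine Prod.ext ?_ (Prod.ext ?_ ?_)
    · rw [← hu1, i1]
      rfl
    · rw [hDn]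
      exact i2
    · rw [← hu2, h7]
      rfl

/-- **The curvature of the tube map.** -/
theorem F0_curv (hn : 1 ≤ n) (hj : ∀ u u', ⟪j u, j u'⟫_ℝ = ⟪u, u'⟫_ℝ) (hΘ : ThData D j Θ) :
    GCurvLE (gamOpen n (Eu (n + 1)) W Z) (F0 D j Θ) 662 := by
  intro x hx w ν hν
  exact (F0_both D j Θ hn hj hΘ hx w).1 ν hν

/-- **The kernel of the derivative of the tube map.** -/
theorem F0_ker (hn : 1 ≤ n) (hj : ∀ u u', ⟪j u, j u'⟫_ℝ = ⟪u, u'⟫_ℝ) (hΘ : ThData D j Θ)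
    {x : PS n (Eu (n + 1)) W Z} (hx : x ∈ gamOpen n (Eu (n + 1)) W Z)
    (u : PS n (Eu (n + 1)) W Z) (h0 : fderiv ℝ (F0 D j Θ) x u = 0)
    (h1 : fderiv ℝ (al : PS n (Eu (n + 1)) W Z → ℝ) x u = 0)
    (h2 : fderiv ℝ (be : PS n (Eu (n + 1)) W Z → ℝ) x u = 0) : u = 0 :=
  (nrm_tangent hx h1 h2).2.2 ((F0_both D j Θ hn hj hΘ hx u).2 h0)

end curv

end Pool.Agent.helper7.MC
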