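import Pool.Agent.helper7.MC.Lower

set_option autoImplicit false

/-!
# MC (MP_56b5c1), section 1: the oriented unit normal of a hypersurface and its tilt

From an immersion `f` of an open set of an `m`-dimensional space into `ℝ^(m+1)` to the hypotheses
of `lower_abstract`.
-/

namespace Pool.Agent.helper7.MC

open Filter Topology Module

open scoped RealInnerProductSpace

section Cross

variable {E : Type*} [NormedAddCommGroup E] [NormedSpace ℝ E]

/-- The alternating map `(w₁,...,w_m) ↦ det (v, L w₁, ..., L w_m)`. -/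
noncomputable def altX {m : ℕ} (L : E →ₗ[ℝ] EuclideanSpace ℝ (Fin (m + 1)))
    (v : EuclideanSpace ℝ (Fin (m + 1))) : E [⋀^Fin m]→ₗ[ℝ] ℝ :=
  (((EuclideanSpace.basisFun (Fin (m + 1)) ℝ).toBasis.det).curryLeft v).compLinearMap L

theorem altX_apply {m : ℕ} (L : E →ₗ[ℝ] EuclideanSpace ℝ (Fin (m + 1)))
    (v : EuclideanSpace ℝ (Fin (m + 1))) (w : Fin m → E) :
    altX L v w = (EuclideanSpace.basisFun (Fin (m + 1)) ℝ).toBasis.det
      (Matrix.vecCons v (fun j => L (w j))) := rfl

/-- The cross product of the columns of `L` (in the basis `b`). -/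
noncomputable def crossX {m : ℕ} (b : Basis (Fin m) ℝ E)
    (L : E →ₗ[ℝ] EuclideanSpace ℝ (Fin (m + 1))) : EuclideanSpace ℝ (Fin (m + 1)) :=
  WithLp.toLp 2 fun i => altX L (EuclideanSpace.single i 1) b

theorem inner_crossX {m : ℕ} (b : Basis (Fin m) ℝ E)
    (L : E →ₗ[ℝ] EuclideanSpace ℝ (Fin (m + 1))) (v : EuclideanSpace ℝ (Fin (m + 1))) :
    ⟪crossX b L, v⟫ = altX L v b := by
  have h1 : ∀ v, altX L v b = ((EuclideanSpace.basisFun (Fin (m + 1)) ℝ).toBasis.det).curryLeft v
      (fun j => L (b j)) := fun v => rfl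
  have h2 : v = ∑ i, v i • EuclideanSpace.single i (1 : ℝ) := by
    have := (EuclideanSpace.basisFun (Fin (m + 1)) ℝ).sum_repr v
    simpa using this.symm
  have h3 : altX L v b = ∑ i, v i * altX L (EuclideanSpace.single i 1) b := by
    let ψ : EuclideanSpace ℝ (Fin (m + 1)) →ₗ[ℝ] ℝ :=
      { toFun := fun v => altX L v b
        map_add' := fun u v => by
          rw [h1, h1, h1, map_add, AlternatingMap.add_apply]
        map_smul' := fun r v => by
          rw [h1, h1, map_smul, AlternatingMap.smul_apply, RingHom.id_apply] }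
    have h4 : ψ v = ∑ i, v i * ψ (EuclideanSpace.single i 1) := by
      conv_lhs => rw [h2]
      rw [map_sum]
      refine Finset.sum_congr rfl fun i _ => ?_
      rw [map_smul, smul_eq_mul]
    exact h4
  rw [h3, PiLp.inner_apply]
  refine Finset.sum_congr rfl fun i _ => ?_
  simp [crossX]

theorem crossX_orth {m : ℕ} (b : Basis (Fin m) ℝ E)
    (L : E →ₗ[ℝ] EuclideanSpace ℝ (Fin (m + 1))) (w : E) : ⟪crossX b L, L w⟫ = 0 := by
  have h1 : ∀ w : E, (innerₛₗ ℝ (crossX b L) ∘ₗ L) w = (0 : E →ₗ[ℝ] ℝ) w := by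
    intro w
    congr 1
    refine b.ext fun j => ?_
    show ⟪crossX b L, L (b j)⟫ = 0
    rw [inner_crossX, altX_apply]
    exact AlternatingMap.map_eq_zero_of_eq _ (i := 0) (j := j.succ) _ rfl
      (Fin.succ_ne_zero j).symm
  exact h1 w

theorem crossX_ne_zero {m : ℕ} (b : Basis (Fin m) ℝ E)
    (L : E →ₗ[ℝ] EuclideanSpace ℝ (Fin (m + 1))) (hL : Function.Injective L) :
    crossX b L ≠ 0 := by
  intro h0
  have hli : LinearIndependent ℝ (fun j => L (b j)) :=
    b.linearIndependent.map' L (LinearMap.ker_eq_bot.2 hL)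
  obtain ⟨v, hv⟩ : ∃ v : EuclideanSpace ℝ (Fin (m + 1)),
      v ∉ Submodule.span ℝ (Set.range fun j => L (b j)) := by
    by_contra hcon
    push Not at hcon
    have h1 : Submodule.span ℝ (Set.range fun j => L (b j)) = ⊤ :=
      Submodule.eq_top_iff'.2 hcon
    have h2 := finrank_span_eq_card hli
    rw [h1, finrank_top, finrank_euclideanSpace_fin, Fintype.card_fin] at h2
    omega
  have h3 : LinearIndependent ℝ (Fin.cons v (fun j => L (b j)) :
      Fin (m + 1) → EuclideanSpace ℝ (Fin (m + 1))) := linearIndependent_finCons.2 ⟨hli, hv⟩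
  have h4 : Submodule.span ℝ (Set.range (Fin.cons v (fun j => L (b j)) :
      Fin (m + 1) → EuclideanSpace ℝ (Fin (m + 1)))) = ⊤ := by
    refine h3.span_eq_top_of_card_eq_finrank' ?_
    rw [finrank_euclideanSpace_fin, Fintype.card_fin]
  have h5 := ((EuclideanSpace.basisFun (Fin (m + 1)) ℝ).toBasis.is_basis_iff_det
    (v := (Fin.cons v (fun j => L (b j)) :
      Fin (m + 1) → EuclideanSpace ℝ (Fin (m + 1))))).1 ⟨h3, h4⟩
  have h6 : altX L v b = 0 := by
    rw [← inner_crossX, h0, inner_zero_left]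
  rw [altX_apply] at h6
  exact h5.ne_zero h6

theorem crossX_comp {m : ℕ} (b : Basis (Fin m) ℝ E)
    (L : E →ₗ[ℝ] EuclideanSpace ℝ (Fin (m + 1))) (g : E →ₗ[ℝ] E) :
    crossX b (L ∘ₗ g) = LinearMap.det g • crossX b L := by
  have h1 : ∀ v, altX (L ∘ₗ g) v b = LinearMap.det g * altX L v b := by
    intro v
    have h2 : altX (L ∘ₗ g) v b = altX L v (g ∘ b) := rfl
    rw [h2, (altX L v).eq_smul_basis_det b, AlternatingMap.smul_apply, AlternatingMap.smul_apply,
      Basis.det_comp, Basis.det_self, smul_eq_mul, smul_eq_mul]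
    ring
  ext i
  show altX (L ∘ₗ g) _ b = LinearMap.det g * altX L _ b
  rw [h1]

theorem crossX_contDiff {m : ℕ} (b : Basis (Fin m) ℝ E) :
    ContDiff ℝ ⊤ fun L : E →L[ℝ] EuclideanSpace ℝ (Fin (m + 1)) =>
      crossX b (L : E →ₗ[ℝ] EuclideanSpace ℝ (Fin (m + 1))) := by
  rw [contDiff_euclidean]
  intro i
  have h1 : (fun L : E →L[ℝ] EuclideanSpace ℝ (Fin (m + 1)) =>
      crossX b (L : E →ₗ[ℝ] EuclideanSpace ℝ (Fin (m + 1))) i) = fun L =>
      ∑ σ : Equiv.Perm (Fin (m + 1)), ((Equiv.Perm.sign σ : ℤ) : ℝ) * ∏ j,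
        (EuclideanSpace.basisFun (Fin (m + 1)) ℝ).toBasis.toMatrix
          (Matrix.vecCons (EuclideanSpace.single i 1) (fun j => L (b j))) (σ j) j := by
    funext L
    show altX _ _ b = _
    rw [altX_apply, Basis.det_apply, Matrix.det_apply']
    rfl
  rw [h1]
  refine ContDiff.sum fun σ _ => contDiff_const.mul (contDiff_prod fun j _ => ?_)
  refine Fin.cases ?_ (fun j => ?_) j
  · exact contDiff_const
  · have h2 : (fun L : E →L[ℝ] EuclideanSpace ℝ (Fin (m + 1)) =>
        (EuclideanSpace.basisFun (Fin (m + 1)) ℝ).toBasis.toMatrix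
          (Matrix.vecCons (EuclideanSpace.single i 1) (fun j => L (b j))) (σ j.succ) j.succ)
        = fun L => (EuclideanSpace.proj (σ j.succ) :
            EuclideanSpace ℝ (Fin (m + 1)) →L[ℝ] ℝ) (L (b j)) := by
      funext L
      simp [Basis.toMatrix_apply]
    rw [h2]
    exact (ContinuousLinearMap.contDiff _).comp
      (contDiff_id.clm_apply contDiff_const)

end Cross

end Pool.Agent.helper7.MC
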