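import Pool.Agent.helper7.MC.BU

set_option autoImplicit false

/-!
# MC (MP_56b5c1), section 1: the dynamical part of the lower bound

Euler steps along the gradient of a height function, Borsuk-Ulam, telescoping.
-/

namespace Pool.Agent.helper7.MC

open Filter Topology Asymptotics

section Euler

variable {E : Type*} [NormedAddCommGroup E] [NormedSpace ℝ E]

/-- Uniform Euler step: for `h` of class `C¹` on the open set `M`, `U` continuous on `M` and `K`
compact in `M`, the first order expansion of `h (x + ε U x)` is uniform for `x ∈ K`. -/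
theorem euler_uniform {M K : Set E} (hM : IsOpen M) (hK : IsCompact K) (hKM : K ⊆ M)
    {h : E → ℝ} (hh : ContDiffOn ℝ 1 h M) {U : E → E} (hU : ContinuousOn U M) {η : ℝ}
    (hη : 0 < η) :
    ∀ᶠ ε : ℝ in 𝓝 0, ∀ x ∈ K, x + ε • U x ∈ M ∧
      |h (x + ε • U x) - h x - ε * fderiv ℝ h x (U x)| ≤ η * |ε| := by
  refine hK.eventually_forall_of_forall_eventually (P := fun ε x => x + ε • U x ∈ M ∧
      |h (x + ε • U x) - h x - ε * fderiv ℝ h x (U x)| ≤ η * |ε|) ?_
  intro x hx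
  have hxM : x ∈ M := hKM hx
  have hMx : M ∈ 𝓝 x := hM.mem_nhds hxM
  have hUx : ContinuousAt U x := hU.continuousAt hMx
  have hhx : ContDiffAt ℝ 1 h x := hh.contDiffAt hMx
  have c2 : ContinuousAt (fun q : ℝ × E => U q.2) ((0 : ℝ), x) :=
    ContinuousAt.comp (f := fun q : ℝ × E => q.2) (g := U) (x := ((0 : ℝ), x)) hUx
      continuousAt_snd
  have c3 : ContinuousAt (fun q : ℝ × E => q.2 + q.1 • U q.2) ((0 : ℝ), x) :=
    continuousAt_snd.add (continuousAt_fst.smul c2)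
  have t3 : Tendsto (fun q : ℝ × E => q.2 + q.1 • U q.2) (𝓝 ((0 : ℝ), x)) (𝓝 x) := by
    have := c3.tendsto
    simpa using this
  have t2 : Tendsto (fun q : ℝ × E => q.2) (𝓝 ((0 : ℝ), x)) (𝓝 x) :=
    (continuous_snd.tendsto ((0 : ℝ), x))
  have t4 : Tendsto (fun q : ℝ × E => (q.2 + q.1 • U q.2, q.2)) (𝓝 ((0 : ℝ), x))
      (𝓝 (x, x)) := t3.prodMk_nhds t2
  have hs : HasStrictFDerivAt h (fderiv ℝ h x) x := hhx.hasStrictFDerivAt (by norm_num)
  have e1 : (fun q : ℝ × E => h (q.2 + q.1 • U q.2) - h q.2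
      - fderiv ℝ h x (q.2 + q.1 • U q.2 - q.2)) =o[𝓝 ((0 : ℝ), x)]
      fun q : ℝ × E => q.2 + q.1 • U q.2 - q.2 := hs.isLittleO.comp_tendsto t4
  have e2 : (fun q : ℝ × E => q.2 + q.1 • U q.2 - q.2) =O[𝓝 ((0 : ℝ), x)]
      fun q : ℝ × E => q.1 := by
    have h1 : (fun q : ℝ × E => q.1 • U q.2) =O[𝓝 ((0 : ℝ), x)]
        fun q : ℝ × E => q.1 • (1 : ℝ) :=
      (isBigO_refl _ _).smul (c2.isBigO_one ℝ)
    refine h1.congr (fun q => ?_) (fun q => ?_)
    · rw [add_sub_cancel_left]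
    · rw [smul_eq_mul, mul_one]
  have e3 := e1.trans_isBigO e2
  have hD : ContinuousAt (fderiv ℝ h) x := hhx.continuousAt_fderiv (by norm_num)
  have e4 : (fun q : ℝ × E => (fderiv ℝ h q.2 - fderiv ℝ h x) (U q.2)) =o[𝓝 ((0 : ℝ), x)]
      fun _ => (1 : ℝ) := by
    rw [isLittleO_one_iff]
    have h1 : ContinuousAt (fun q : ℝ × E => fderiv ℝ h q.2) ((0 : ℝ), x) :=
      ContinuousAt.comp (f := fun q : ℝ × E => q.2) (g := fderiv ℝ h) (x := ((0 : ℝ), x)) hD
        continuousAt_snd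
    have h2 : ContinuousAt (fun q : ℝ × E => (fderiv ℝ h q.2 - fderiv ℝ h x) (U q.2))
        ((0 : ℝ), x) := (h1.sub continuousAt_const).clm_apply c2
    have h3 := h2.tendsto
    simpa using h3
  have e5 : (fun q : ℝ × E => q.1 * (fderiv ℝ h q.2 - fderiv ℝ h x) (U q.2))
      =o[𝓝 ((0 : ℝ), x)] fun q : ℝ × E => q.1 := by
    have h1 : (fun q : ℝ × E => q.1 * (fderiv ℝ h q.2 - fderiv ℝ h x) (U q.2))
      =o[𝓝 ((0 : ℝ), x)] fun q : ℝ × E => q.1 * (1 : ℝ) :=
      (isBigO_refl _ _).mul_isLittleO e4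
    simpa using h1
  have e6 := e3.sub e5
  have m1 : ∀ᶠ q : ℝ × E in 𝓝 ((0 : ℝ), x), q.2 + q.1 • U q.2 ∈ M := t3.eventually hMx
  filter_upwards [m1, e6.def hη] with q hq1 hq2
  refine ⟨hq1, ?_⟩
  have e7 : h (q.2 + q.1 • U q.2) - h q.2 - fderiv ℝ h x (q.2 + q.1 • U q.2 - q.2)
      - q.1 * (fderiv ℝ h q.2 - fderiv ℝ h x) (U q.2)
      = h (q.2 + q.1 • U q.2) - h q.2 - q.1 * fderiv ℝ h q.2 (U q.2) := by
    rw [add_sub_cancel_left, map_smul, smul_eq_mul, sub_apply]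
    ring
  rw [e7, Real.norm_eq_abs, Real.norm_eq_abs] at hq2
  exact hq2

end Euler

section Main

variable {E : Type*} [NormedAddCommGroup E] [NormedSpace ℝ E]

/-- One Euler step. -/
def stepU (U : E → E) (ε : ℝ) (x : E) : E := x + ε • U x

theorem stepU_equiv {M : Set E} {U : E → E} {g : E ≃ᵃ[ℝ] E}
    (Uinv : ∀ x ∈ M, U (g x) = g.linear (U x)) (ε : ℝ) {x : E} (hx : x ∈ M) :
    stepU U ε (g x) = g (stepU U ε x) := by
  unfold stepU
  rw [Uinv x hx]
  have h1 : g (x + ε • U x) = g (ε • U x +ᵥ x) := by rw [vadd_eq_add, add_comm]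
  rw [h1, AffineEquiv.map_vadd, map_smul, vadd_eq_add, add_comm]

/-- The dynamical part of the lower bound. -/
theorem lower_abstract {n : ℕ} (hn : 1 ≤ n) {c : ℝ} {M K : Set E} (hM : IsOpen M)
    (hK : IsCompact K) (hKM : K ⊆ M) (G : Set (E ≃ᵃ[ℝ] E))
    (hGM : ∀ g ∈ G, ∀ x, g x ∈ M ↔ x ∈ M) (hcov : ∀ x ∈ M, ∃ g ∈ G, g x ∈ K)
    (h a : E → ℝ) (U : E → E) (hh : ContDiffOn ℝ 1 h M) (ha : ContDiffOn ℝ 1 a M)
    (hU : ContinuousOn U M) (h1 : ∀ x ∈ M, |h x| ≤ 1)
    (hinv : ∀ g ∈ G, ∀ x ∈ M, h (g x) = h x)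
    (ainv : ∀ g ∈ G, (∀ x ∈ M, a (g x) = a x) ∨ (∀ x ∈ M, a (g x) = - a x))
    (Uinv : ∀ g ∈ G, ∀ x ∈ M, U (g x) = g.linear (U x))
    (hDh : ∀ x ∈ M, fderiv ℝ h x (U x) = 1 - a x ^ 2)
    (hDa : ∀ x ∈ M, |fderiv ℝ a x (U x)| ≤ c)
    (τ : E ≃ᵃ[ℝ] E) (hτ : τ ∈ G) (aτ : ∀ x ∈ M, a (τ x) = - a x)
    (p : EuclideanSpace ℝ (Fin (n + 1)) → E) (hp : ContinuousOn p (Metric.sphere 0 1))
    (hpM : ∀ y ∈ Metric.sphere (0 : EuclideanSpace ℝ (Fin (n + 1))) 1, p y ∈ M)
    (hpτ : ∀ y ∈ Metric.sphere (0 : EuclideanSpace ℝ (Fin (n + 1))) 1, p (-y) = τ (p y)) :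
    (n : ℝ) / (3 * √3) ≤ c := by
  by_contra hcon
  push Not at hcon
  have hn0 : (0 : ℝ) < n := by exact_mod_cast hn
  -- `c` is nonnegative
  have hy0 : EuclideanSpace.single (0 : Fin (n + 1)) (1 : ℝ)
      ∈ Metric.sphere (0 : EuclideanSpace ℝ (Fin (n + 1))) 1 := by simp
  have hc0 : 0 ≤ c := (abs_nonneg _).trans (hDa _ (hpM _ hy0))
  have h3 : (0 : ℝ) < √3 := by positivity
  have h33 : √3 * √3 = 3 := Real.mul_self_sqrt (by norm_num)
  have hc1 : 27 * c ^ 2 < n ^ 2 := by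
    rw [lt_div_iff₀ (by positivity)] at hcon
    have e1 : (c * (3 * √3)) * (c * (3 * √3)) < n * n :=
      mul_self_lt_mul_self (by positivity) hcon
    nlinarith [e1, h33]
  -- choice of `η`
  obtain ⟨η, hη, hη2⟩ : ∃ η : ℝ, 0 < η ∧ 2 < 3 * (1 - (3 / n * (c + η)) ^ 2 - η) := by
    have hcont : Continuous fun η : ℝ => 3 * (1 - (3 / n * (c + η)) ^ 2 - η) := by fun_prop
    have h0 : 2 < 3 * (1 - (3 / n * (c + 0)) ^ 2 - 0) := by
      have : (3 / n * (c + 0)) ^ 2 = 9 * c ^ 2 / (n : ℝ) ^ 2 := by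
        field_simp
        ring
      rw [this]
      have : 9 * c ^ 2 / (n : ℝ) ^ 2 < 1 / 3 := by
        rw [div_lt_iff₀ (by positivity)]
        linarith
      linarith
    have h5 : ∀ᶠ η : ℝ in 𝓝 0, 2 < 3 * (1 - (3 / n * (c + η)) ^ 2 - η) :=
      (hcont.tendsto 0).eventually_const_lt h0
    have h6 : ∀ᶠ η : ℝ in 𝓝[>] 0, 2 < 3 * (1 - (3 / n * (c + η)) ^ 2 - η) :=
      h5.filter_mono nhdsWithin_le_nhds
    obtain ⟨η, hη1, hη2⟩ := (h6.and self_mem_nhdsWithin).exists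
    exact ⟨η, hη2, hη1⟩
  -- choice of the step
  have ev1 := euler_uniform hM hK hKM hh hU hη
  have ev2 := euler_uniform hM hK hKM ha hU hη
  have ev3 : Tendsto (fun k : ℕ => 3 / ((n : ℝ) * (k : ℝ))) atTop (𝓝 0) := by
    have h6 : Tendsto (fun k : ℕ => (3 / (n : ℝ)) / (k : ℝ)) atTop (𝓝 0) :=
      tendsto_const_div_atTop_nhds_zero_nat _
    refine h6.congr fun k => ?_
    rw [div_div]
  obtain ⟨k, hk, hk1⟩ := ((ev3.eventually (ev1.and ev2)).and (eventually_ge_atTop 1)).exists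
  obtain ⟨ε, hε⟩ : ∃ ε : ℝ, ε = 3 / ((n : ℝ) * (k : ℝ)) := ⟨_, rfl⟩
  rw [← hε] at hk
  obtain ⟨hk2, hk3⟩ := hk
  have hk0 : (0 : ℝ) < k := by exact_mod_cast hk1
  have hε0 : 0 < ε := by rw [hε]; positivity
  -- properties of the step on the whole of `M`
  have hS : ∀ x ∈ M, stepU U ε x ∈ M ∧
      |h (stepU U ε x) - h x - ε * (1 - a x ^ 2)| ≤ η * ε ∧
      |a (stepU U ε x) - a x| ≤ ε * (c + η) := by
    intro x hx
    obtain ⟨g, hg, hgx⟩ := hcov x hx
    have hgM : g x ∈ M := hKM hgx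
    have q1 := hk2 (g x) hgx
    have q2 := hk3 (g x) hgx
    have q3 : g x + ε • U (g x) = g (stepU U ε x) := stepU_equiv (Uinv g hg) ε hx
    rw [q3, abs_of_pos hε0] at q1 q2
    have hSM : stepU U ε x ∈ M := (hGM g hg _).1 q1.1
    have q4 := q1.2
    have q5 := q2.2
    rw [hinv g hg _ hSM, hinv g hg _ hx, hDh _ hgM] at q4
    have q6 : a (g x) ^ 2 = a x ^ 2 := by
      rcases ainv g hg with h8 | h8
      · rw [h8 _ hx]
      · rw [h8 _ hx]
        ring
    rw [q6] at q4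
    refine ⟨hSM, q4, ?_⟩
    have q7 : |a (g (stepU U ε x)) - a (g x)| ≤ ε * (c + η) := by
      have q8 := hDa _ hgM
      have q9 : |ε * fderiv ℝ a (g x) (U (g x))| ≤ ε * c := by
        rw [abs_mul, abs_of_pos hε0]
        exact mul_le_mul_of_nonneg_left q8 hε0.le
      calc |a (g (stepU U ε x)) - a (g x)|
          = |(a (g (stepU U ε x)) - a (g x) - ε * fderiv ℝ a (g x) (U (g x)))
            + ε * fderiv ℝ a (g x) (U (g x))| := by congr 1; ring
        _ ≤ |a (g (stepU U ε x)) - a (g x) - ε * fderiv ℝ a (g x) (U (g x))|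
            + |ε * fderiv ℝ a (g x) (U (g x))| := abs_add_le _ _
        _ ≤ η * ε + ε * c := add_le_add q5 q9
        _ = ε * (c + η) := by ring
    rcases ainv g hg with h8 | h8
    · rw [h8 _ hx, h8 _ hSM] at q7
      exact q7
    · rw [h8 _ hx, h8 _ hSM] at q7
      rw [show a (stepU U ε x) - a x = -(-a (stepU U ε x) - -a x) by ring, abs_neg]
      exact q7
  have hSeq : ∀ x ∈ M, stepU U ε (τ x) = τ (stepU U ε x) := fun x hx =>
    stepU_equiv (Uinv τ hτ) ε hx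
  have hSc : ContinuousOn (stepU U ε) M := continuousOn_id.add (hU.const_smul ε)
  have hit : ∀ j : ℕ, ∀ x ∈ M, (stepU U ε)^[j] x ∈ M := by
    intro j
    induction j with
    | zero => intro x hx; exact hx
    | succ j ih =>
      intro x hx
      rw [Function.iterate_succ_apply']
      exact (hS _ (ih x hx)).1
  have hitc : ∀ j : ℕ, ContinuousOn ((stepU U ε)^[j]) M := by
    intro j
    induction j with
    | zero => exact continuousOn_id
    | succ j ih =>
      rw [Function.iterate_succ']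
      exact hSc.comp ih (fun x hx => hit j x hx)
  have hitτ : ∀ j : ℕ, ∀ x ∈ M, (stepU U ε)^[j] (τ x) = τ ((stepU U ε)^[j] x) := by
    intro j
    induction j with
    | zero => intro x _; rfl
    | succ j ih =>
      intro x hx
      rw [Function.iterate_succ_apply', Function.iterate_succ_apply', ih x hx,
        hSeq _ (hit j x hx)]
  -- Borsuk-Ulam
  obtain ⟨y, hy, hyz⟩ := borsukUlam n (fun y i => a ((stepU U ε)^[(i : ℕ) * k] (p y))) (by
    refine continuousOn_pi.2 fun i => ?_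
    refine ha.continuousOn.comp ((hitc _).comp hp hpM) ?_
    intro y hy
    exact hit _ _ (hpM y hy)) (by
    intro y hy
    funext i
    show a ((stepU U ε)^[(i : ℕ) * k] (p (-y))) = - a ((stepU U ε)^[(i : ℕ) * k] (p y))
    rw [hpτ y hy, hitτ _ _ (hpM y hy), aτ _ (hit _ _ (hpM y hy))])
  obtain ⟨x, hx⟩ : ∃ x : ℕ → E, x = fun j => (stepU U ε)^[j] (p y) := ⟨_, rfl⟩
  have hxM : ∀ j, x j ∈ M := by
    intro j
    rw [hx]
    exact hit j _ (hpM y hy)
  have hxs : ∀ j, x (j + 1) = stepU U ε (x j) := by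
    intro j
    rw [hx]
    exact Function.iterate_succ_apply' _ _ _
  have hx0 : ∀ i < n, a (x (i * k)) = 0 := by
    intro i hi
    have := congrFun hyz ⟨i, hi⟩
    rw [hx]
    exact this
  have hxa : ∀ i < n, ∀ r, |a (x (i * k + r))| ≤ r * (ε * (c + η)) := by
    intro i hi r
    induction r with
    | zero =>
      rw [add_zero, hx0 i hi]
      simp
    | succ r ih =>
      rw [← add_assoc, hxs]
      have h8 := (hS _ (hxM (i * k + r))).2.2
      have h9 : |a (stepU U ε (x (i * k + r)))| ≤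
          |a (stepU U ε (x (i * k + r))) - a (x (i * k + r))| + |a (x (i * k + r))| := by
        have := abs_add_le (a (stepU U ε (x (i * k + r))) - a (x (i * k + r)))
          (a (x (i * k + r)))
        rwa [sub_add_cancel] at this
      push_cast
      linarith
  have hxa2 : ∀ j < n * k, a (x j) ^ 2 ≤ (3 / n * (c + η)) ^ 2 := by
    intro j hj
    have h8 : j / k < n := Nat.div_lt_of_lt_mul (by rwa [mul_comm])
    have h9 := hxa (j / k) h8 (j % k)
    have h10 : j / k * k + j % k = j := by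
      rw [mul_comm]
      exact Nat.div_add_mod j k
    rw [h10] at h9
    have h11 : ((j % k : ℕ) : ℝ) ≤ k := by
      exact_mod_cast (Nat.mod_lt j hk1).le
    have h12 : |a (x j)| ≤ 3 / n * (c + η) := by
      refine h9.trans ?_
      have h13 : 3 / n * (c + η) = k * (ε * (c + η)) := by
        rw [hε]
        field_simp
      rw [h13]
      exact mul_le_mul_of_nonneg_right h11 (by positivity)
    rw [← sq_abs (a (x j))]
    exact pow_le_pow_left₀ (abs_nonneg _) h12 2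
  have htel : ∀ j ≤ n * k, (j : ℝ) * (ε * (1 - (3 / n * (c + η)) ^ 2 - η)) ≤ h (x j) - h (x 0) := by
    intro j
    induction j with
    | zero => intro _; simp
    | succ j ih =>
      intro hj
      have h8 := ih (by omega)
      have h9 := hxa2 j (by omega)
      have h10 := (hS _ (hxM j)).2.1
      rw [← hxs] at h10
      have h11 := (abs_le.1 h10).1
      have h12 : ε * a (x j) ^ 2 ≤ ε * (3 / n * (c + η)) ^ 2 :=
        mul_le_mul_of_nonneg_left h9 hε0.le
      push_cast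
      nlinarith
  have h8 := htel (n * k) le_rfl
  have h9 : ((n * k : ℕ) : ℝ) * (ε * (1 - (3 / n * (c + η)) ^ 2 - η))
      = 3 * (1 - (3 / n * (c + η)) ^ 2 - η) := by
    rw [hε]
    push_cast
    field_simp
  rw [h9] at h8
  have h10 := (abs_le.1 (h1 _ (hxM (n * k)))).2
  have h11 := (abs_le.1 (h1 _ (hxM 0))).1
  linarith

end Main

end Pool.Agent.helper7.MC
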